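import Mathlib

/-! Characteristic polynomials of a similitude on an isotropic stable subspace. -/

set_option autoImplicit false

namespace Pool.Agent.W522.C

open Polynomial Module

section
variable {K V : Type*} [Field K] [Infinite K] [AddCommGroup V] [Module K V] [FiniteDimensional K V]

lemma charpoly_eq_mul (g : Module.End K V) (W : Submodule K V) (hW : W ≤ W.comap g) :
    g.charpoly = (g.restrict hW).charpoly * (W.mapQ W g hW).charpoly := by
  apply Polynomial.funext
  intro t
  rw [eval_mul, LinearMap.eval_charpoly, LinearMap.eval_charpoly, LinearMap.eval_charpoly]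
  have h1 : W ≤ W.comap (algebraMap K (Module.End K V) t - g) := by
    intro x hx
    change t • x - g x ∈ W
    exact W.sub_mem (W.smul_mem t hx) (hW hx)
  rw [LinearMap.det_eq_det_mul_det W _ h1]
  congr 1
  congr 1
  apply LinearMap.ext
  intro x
  obtain ⟨x, rfl⟩ := W.mkQ_surjective x
  rfl

/-- the pairing of `V` with a subspace -/
def piR (b : V →ₗ[K] V →ₗ[K] K) (R : Submodule K V) : V →ₗ[K] Dual K R :=
  (b.comp R.subtype).flip

lemma piR_apply (b : V →ₗ[K] V →ₗ[K] K) (R : Submodule K V) (v : V) (x : R) :
    piR b R v x = b x v := rfl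

lemma piR_surj (b : V →ₗ[K] V →ₗ[K] K) (hb : ∀ x, (∀ y, b x y = 0) → x = 0)
    (R : Submodule K V) : Function.Surjective (piR b R) := by
  have h1 : Function.Injective (b.comp R.subtype) := by
    rw [← LinearMap.ker_eq_bot, LinearMap.ker_eq_bot']
    intro x hx
    apply Subtype.ext
    exact hb x fun y => congrArg (fun f : Dual K V => f y) hx
  have h2 : Function.Surjective (b.comp R.subtype).dualMap :=
    LinearMap.dualMap_surjective_of_injective h1
  intro f
  obtain ⟨F, hF⟩ := h2 f
  obtain ⟨v, rfl⟩ := (Module.evalEquiv K V).surjective F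
  refine ⟨v, ?_⟩
  rw [← hF]
  rfl

lemma charpoly_dvd_of_le (g : Module.End K V) (R U : Submodule K V) (hR : R ≤ R.comap g)
    (hU : U ≤ U.comap g) (hRU : R ≤ U) :
    (g.restrict hR).charpoly ∣ (g.restrict hU).charpoly := by
  have h1 : R.submoduleOf U ≤ (R.submoduleOf U).comap (g.restrict hU) := by
    intro x hx
    exact hR hx
  have h2 := charpoly_eq_mul (g.restrict hU) (R.submoduleOf U) h1
  have h3 : ((g.restrict hU).restrict h1).charpoly = (g.restrict hR).charpoly := by
    rw [← LinearEquiv.charpoly_conj (Submodule.submoduleOfEquivOfLe hRU)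
      ((g.restrict hU).restrict h1)]
    congr 1
  rw [h2, h3]
  exact dvd_mul_right _ _

/-- the characteristic polynomial of a similitude is divisible by `f · f^*` -/
theorem charpoly_dvd (b : V →ₗ[K] V →ₗ[K] K) (hb : ∀ x, (∀ y, b x y = 0) → x = 0)
    (g : Module.End K V) {c : K} (hc : c ≠ 0) (hg : ∀ x y, b (g x) (g y) = c * b x y)
    (R : Submodule K V) (hR : R ≤ R.comap g) (hiso : ∀ x ∈ R, ∀ y ∈ R, b x y = 0) :
    ∃ f : K[X], (g.restrict hR).charpoly * f ∣ g.charpoly ∧
      LinearMap.det (g.restrict hR) ≠ 0 ∧
      ∀ t : K, t ≠ 0 → f.eval t * (LinearMap.det (g.restrict hR)) =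
        (-t) ^ (finrank K R) * (g.restrict hR).charpoly.eval (c / t) := by
  have hginj : Function.Injective g := by
    rw [← LinearMap.ker_eq_bot, LinearMap.ker_eq_bot']
    intro x hx
    apply hb
    intro y
    have h1 := hg x y
    rw [hx, map_zero, LinearMap.zero_apply] at h1
    exact (mul_eq_zero.1 h1.symm).resolve_left hc
  have hRinj : Function.Injective (g.restrict hR) := by
    intro x y hxy
    apply Subtype.ext
    exact hginj (congrArg Subtype.val hxy)
  let e : R ≃ₗ[K] R := LinearEquiv.ofInjectiveEndo (g.restrict hR) hRinj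
  have he : ∀ x, e x = g.restrict hR x := fun x => rfl
  have hdet : LinearMap.det (g.restrict hR) ≠ 0 := by
    have h1 : IsUnit (LinearMap.det (e : R →ₗ[K] R)) := LinearEquiv.isUnit_det' e
    exact h1.ne_zero
  set π := piR b R with hπ
  have hsurj := piR_surj b hb R
  let h : Module.End K (Dual K R) := c • (e.symm : R →ₗ[K] R).dualMap
  have hπg : ∀ v, π (g v) = h (π v) := by
    intro v
    apply LinearMap.ext
    intro x
    change b x (g v) = c * b (e.symm x) v
    rw [← hg]
    congr 2
    change (x : V) = ((g.restrict hR (e.symm x) : R) : V)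
    rw [← he, LinearEquiv.apply_symm_apply]
  have hU : LinearMap.ker π ≤ (LinearMap.ker π).comap g := by
    intro v hv
    rw [Submodule.mem_comap, LinearMap.mem_ker, hπg, LinearMap.mem_ker.1 hv, map_zero]
  let E : (V ⧸ LinearMap.ker π) ≃ₗ[K] Dual K R := π.quotKerEquivOfSurjective hsurj
  have hcp : ((LinearMap.ker π).mapQ (LinearMap.ker π) g hU).charpoly = h.charpoly := by
    rw [← LinearEquiv.charpoly_conj E]
    congr 1
    apply LinearMap.ext
    intro f
    obtain ⟨v, rfl⟩ := hsurj f
    rw [LinearEquiv.conj_apply_apply]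
    have h1 : E.symm (π v) = Submodule.Quotient.mk v := by
      rw [LinearEquiv.symm_apply_eq]
      rfl
    rw [h1, Submodule.mapQ_apply]
    exact hπg v
  refine ⟨h.charpoly, ?_, hdet, ?_⟩
  · rw [charpoly_eq_mul g (LinearMap.ker π) hU, hcp]
    refine mul_dvd_mul_right (charpoly_dvd_of_le g R _ hR hU ?_) _
    intro y hy
    rw [LinearMap.mem_ker]
    apply LinearMap.ext
    intro x
    exact hiso x x.2 y hy
  · intro t ht
    rw [LinearMap.eval_charpoly, LinearMap.eval_charpoly]
    have h1 : algebraMap K (Module.End K (Dual K R)) t - h =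
        (algebraMap K (Module.End K R) t - c • (e.symm : R →ₗ[K] R)).dualMap := by
      apply LinearMap.ext
      intro f
      apply LinearMap.ext
      intro x
      change t * f x - c * f (e.symm x) = f (t • x - c • e.symm x)
      rw [map_sub, map_smul, map_smul]
      rfl
    rw [h1, LinearMap.det_dualMap, ← LinearMap.det_comp]
    have h2 : (algebraMap K (Module.End K R) t - c • (e.symm : R →ₗ[K] R)) ∘ₗ (g.restrict hR) =
        (-t) • (algebraMap K (Module.End K R) (c / t) - g.restrict hR) := by
      apply LinearMap.ext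
      intro x
      change t • g.restrict hR x - c • e.symm (e x) = (-t) • ((c / t) • x - g.restrict hR x)
      rw [LinearEquiv.symm_apply_apply, smul_sub, smul_smul, neg_mul, mul_div_cancel₀ _ ht]
      module
    rw [h2, LinearMap.det_smul]

end

end Pool.Agent.W522.C
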