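import Pool.Agent.W401.Cheb.Main

/-! Lifting Frobenius elements to automorphisms of the algebraic closure of `ℚ_ℓ`. -/

set_option autoImplicit false

namespace Pool.Agent.W522.C

open Pool.Agent.W401.Cheb NumberField

section Local

variable {ℓ : ℕ} [Fact ℓ.Prime]

lemma card_quot (P : Ideal ℤ_[ℓ]) (hP : P.IsMaximal) : Nat.card (ℤ_[ℓ] ⧸ P) = ℓ := by
  have h1 : P = IsLocalRing.maximalIdeal ℤ_[ℓ] := IsLocalRing.eq_maximalIdeal hP
  subst h1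
  have h2 : (ℤ_[ℓ] ⧸ IsLocalRing.maximalIdeal ℤ_[ℓ]) ≃ ZMod ℓ :=
    (PadicInt.residueField (p := ℓ)).toEquiv
  rw [Nat.card_congr h2, Nat.card_zmod]

lemma exists_emb (F : Type) [Field F] [Finite F] [CharP F ℓ] :
    Nonempty (F →+* AlgebraicClosure (ZMod ℓ)) := by
  let : Algebra (ZMod ℓ) F := ZMod.algebra _ ℓ
  have : Module.Finite (ZMod ℓ) F := Module.Finite.of_finite
  exact ⟨(IsAlgClosed.lift : F →ₐ[ZMod ℓ] AlgebraicClosure (ZMod ℓ)).toRingHom⟩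

/-- a Frobenius element of a finite Galois extension of `ℚ_ℓ` -/
theorem local_frob (M : Type) [Field M] [Algebra ℚ_[ℓ] M] [FiniteDimensional ℚ_[ℓ] M]
    [IsGalois ℚ_[ℓ] M] [Algebra ℤ_[ℓ] M] [IsScalarTower ℤ_[ℓ] ℚ_[ℓ] M] :
    ∃ (τ : Gal(M/ℚ_[ℓ])) (ψ : integralClosure ℤ_[ℓ] M →+* AlgebraicClosure (ZMod ℓ)),
      ∀ x y : integralClosure ℤ_[ℓ] M, (y : M) = τ x → ψ y = ψ x ^ ℓ := by
  have : IsFractionRing (integralClosure ℤ_[ℓ] M) M :=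
    integralClosure.isFractionRing_of_finite_extension ℚ_[ℓ] M
  have : Module.Finite ℤ_[ℓ] (integralClosure ℤ_[ℓ] M) :=
    IsIntegralClosure.finite ℤ_[ℓ] ℚ_[ℓ] M (integralClosure ℤ_[ℓ] M)
  have hinv : Algebra.IsInvariant ℤ_[ℓ] (integralClosure ℤ_[ℓ] M)
      (integralClosure ℤ_[ℓ] M ≃ₐ[ℤ_[ℓ]] integralClosure ℤ_[ℓ] M) :=
    Algebra.isInvariant_of_isGalois' ℤ_[ℓ] ℚ_[ℓ] M _
  obtain ⟨Q, hQ⟩ := Ideal.exists_maximal (integralClosure ℤ_[ℓ] M)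
  have hP : (Q.under ℤ_[ℓ]).IsMaximal := by
    have := hQ
    exact Ideal.isMaximal_comap_of_isIntegral_of_isMaximal Q
  have hcard := card_quot _ hP
  have hfinP : Finite (ℤ_[ℓ] ⧸ Q.under ℤ_[ℓ]) := by
    apply Nat.finite_of_card_ne_zero
    rw [hcard]
    exact (Fact.out : ℓ.Prime).ne_zero
  have h1 : Module.Finite ℤ_[ℓ] (integralClosure ℤ_[ℓ] M ⧸ Q) := inferInstance
  have h2 : Module.Finite (ℤ_[ℓ] ⧸ Q.under ℤ_[ℓ]) (integralClosure ℤ_[ℓ] M ⧸ Q) :=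
    Module.Finite.of_restrictScalars_finite ℤ_[ℓ] _ _
  have h3 : Finite (integralClosure ℤ_[ℓ] M ⧸ Q) :=
    Module.finite_of_finite (ℤ_[ℓ] ⧸ Q.under ℤ_[ℓ])
  have : Finite (integralClosure ℤ_[ℓ] M ≃ₐ[ℤ_[ℓ]] integralClosure ℤ_[ℓ] M) :=
    Finite.of_equiv _ (galRestrict ℤ_[ℓ] ℚ_[ℓ] M (integralClosure ℤ_[ℓ] M)).toEquiv
  obtain ⟨σ, hσ⟩ := IsArithFrobAt.exists_of_isInvariant ℤ_[ℓ]
    (integralClosure ℤ_[ℓ] M ≃ₐ[ℤ_[ℓ]] integralClosure ℤ_[ℓ] M) Q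
  let : Field (integralClosure ℤ_[ℓ] M ⧸ Q) := Ideal.Quotient.field Q
  have hchar : CharP (integralClosure ℤ_[ℓ] M ⧸ Q) ℓ := by
    have h4 : ((ℓ : ℕ) : integralClosure ℤ_[ℓ] M ⧸ Q) = 0 := by
      have h5 : ((ℓ : ℕ) : ℤ_[ℓ]) ∈ Q.under ℤ_[ℓ] := by
        rw [IsLocalRing.eq_maximalIdeal hP, PadicInt.maximalIdeal_eq_span_p]
        exact Ideal.mem_span_singleton_self _
      have h6 : algebraMap ℤ_[ℓ] (integralClosure ℤ_[ℓ] M) ((ℓ : ℕ) : ℤ_[ℓ]) ∈ Q := h5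
      rw [map_natCast] at h6
      have h7 := Ideal.Quotient.eq_zero_iff_mem.2 h6
      rwa [map_natCast] at h7
    exact (CharP.charP_iff_prime_eq_zero Fact.out).2 h4
  obtain ⟨e⟩ := exists_emb (ℓ := ℓ) (integralClosure ℤ_[ℓ] M ⧸ Q)
  refine ⟨(galRestrict ℤ_[ℓ] ℚ_[ℓ] M (integralClosure ℤ_[ℓ] M)).symm σ,
    e.comp (Ideal.Quotient.mk Q), ?_⟩
  intro x y hxy
  have h5 : y = σ x := by
    apply Subtype.ext
    rw [hxy]
    have h6 := algebraMap_galRestrict_apply (A := ℤ_[ℓ]) (K := ℚ_[ℓ]) (L := M)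
      (B := integralClosure ℤ_[ℓ] M)
      ((galRestrict ℤ_[ℓ] ℚ_[ℓ] M (integralClosure ℤ_[ℓ] M)).symm σ) x
    rw [MulEquiv.apply_symm_apply] at h6
    exact h6.symm
  have h7 : Ideal.Quotient.mk Q y = Ideal.Quotient.mk Q x ^ ℓ := by
    rw [← map_pow, Ideal.Quotient.eq, h5]
    have h8 := hσ x
    rw [hcard] at h8
    exact h8
  change e (Ideal.Quotient.mk Q y) = e (Ideal.Quotient.mk Q x) ^ ℓ
  rw [h7, map_pow]

/-- **Frobenius elements of a number field are induced by automorphisms of the algebraic closure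
of `ℚ_ℓ`.** -/
theorem exists_local (L : Type) [Field L] [NumberField L] [IsGalois ℚ L]
    (ι : L →+* AlgebraicClosure ℚ_[ℓ]) :
    ∃ (σ : AlgebraicClosure ℚ_[ℓ] ≃ₐ[ℚ_[ℓ]] AlgebraicClosure ℚ_[ℓ])
      (φ : 𝓞 L →+* AlgebraicClosure (ZMod ℓ)) (g : Gal(L/ℚ)),
      (∀ x, σ (ι x) = ι (g x)) ∧ HasFrob ℓ φ g := by
  classical
  have hgal : IsGalois ℚ_[ℓ] (AlgebraicClosure ℚ_[ℓ]) := inferInstance
  let b := Module.finBasis ℚ L
  let s : Set (AlgebraicClosure ℚ_[ℓ]) := Set.range fun i => ι (b i)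
  have hs : Finite s := Set.finite_range _
  let M := FiniteGaloisIntermediateField.adjoin ℚ_[ℓ] s
  have hM : ∀ x, ι x ∈ M.toIntermediateField := by
    intro x
    rw [← b.sum_repr x, map_sum]
    refine sum_mem fun i _ => ?_
    have h1 : ι (b.repr x i • b i) = ((b.repr x i : ℚ) : AlgebraicClosure ℚ_[ℓ]) * ι (b i) := by
      rw [Algebra.smul_def, map_mul, eq_ratCast, map_ratCast]
    rw [h1]
    refine mul_mem (SubfieldClass.ratCast_mem _ _) ?_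
    exact FiniteGaloisIntermediateField.subset_adjoin ℚ_[ℓ] s ⟨i, rfl⟩
  obtain ⟨τ, ψ, h⟩ := local_frob (ℓ := ℓ) M.toIntermediateField
  let σ : AlgebraicClosure ℚ_[ℓ] ≃ₐ[ℚ_[ℓ]] AlgebraicClosure ℚ_[ℓ] :=
    τ.liftNormal (AlgebraicClosure ℚ_[ℓ])
  have hσ : ∀ x : M.toIntermediateField, σ (x : AlgebraicClosure ℚ_[ℓ]) =
      (τ x : AlgebraicClosure ℚ_[ℓ]) := fun x => τ.liftNormal_commutes (AlgebraicClosure ℚ_[ℓ]) x
  let := ι.toAlgebra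
  have : IsScalarTower ℚ L (AlgebraicClosure ℚ_[ℓ]) := IsScalarTower.of_algebraMap_eq' (by
    apply RingHom.ext_rat)
  let σQ : AlgebraicClosure ℚ_[ℓ] ≃ₐ[ℚ] AlgebraicClosure ℚ_[ℓ] := σ.restrictScalars ℚ
  let g : Gal(L/ℚ) := σQ.restrictNormal L
  have hg : ∀ x, σ (ι x) = ι (g x) := fun x => (σQ.restrictNormal_commutes L x).symm
  have hint : ∀ x : 𝓞 L, IsIntegral ℤ_[ℓ] (⟨ι x, hM x⟩ : M.toIntermediateField) := by
    intro x
    have h1 : IsIntegral ℤ (⟨ι x, hM x⟩ : M.toIntermediateField) := by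
      have h2 : IsIntegral ℤ (x : L) := x.2
      let j : L →+* M.toIntermediateField := ι.codRestrict _ hM
      exact h2.map j.toIntAlgHom
    exact h1.tower_top
  let j : L →+* M.toIntermediateField := ι.codRestrict _ hM
  let jO : 𝓞 L →+* integralClosure ℤ_[ℓ] M.toIntermediateField :=
    (j.comp (algebraMap (𝓞 L) L)).codRestrict _ hint
  refine ⟨σ, ψ.comp jO, g, hg, ?_⟩
  intro x
  change ψ (jO (g • x)) = ψ (jO x) ^ ℓ
  apply h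
  apply Subtype.ext
  change ι ((g • x : 𝓞 L) : L) = _
  rw [← hσ]
  change ι (g (x : L)) = σ (ι x)
  exact (hg x).symm

/-- **Complex conjugation as a Frobenius element**, general form: if `g` is a Frobenius element at
`ℓ`, it is induced by an automorphism of the algebraic closure of `ℚ_ℓ`. -/
theorem sigma_lift (L : Type) [Field L] [NumberField L] [IsGalois ℚ L] (c : Gal(L/ℚ))
    (hT : TorAt L ℓ) (hx : xp L c ℓ ≠ 0) :
    ∃ (ι : L →+* AlgebraicClosure ℚ_[ℓ])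
      (σ : AlgebraicClosure ℚ_[ℓ] ≃ₐ[ℚ_[ℓ]] AlgebraicClosure ℚ_[ℓ]), ∀ x, σ (ι x) = ι (c x) := by
  classical
  have hℓ : ℓ.Prime := Fact.out
  have hne : Nonempty {φ : 𝓞 L →+* AlgebraicClosure (ZMod ℓ) // HasFrob ℓ φ c} := by
    unfold xp at hx
    rw [dif_pos hℓ] at hx
    exact (Nat.card_ne_zero.1 hx).1
  obtain ⟨φ, hφ⟩ := hne
  let ι0 : L →+* AlgebraicClosure ℚ_[ℓ] :=
    (IsAlgClosed.lift : L →ₐ[ℚ] AlgebraicClosure ℚ_[ℓ]).toRingHom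
  obtain ⟨σ, φ0, g, hg, hφ0⟩ := exists_local (ℓ := ℓ) L ι0
  obtain ⟨k, hk, -⟩ := hT.2.1 φ0 φ
  have hck : k * c = g * k := by
    apply tw_inj hT (φ := φ0)
    intro x
    rw [mul_smul, ← hk, hφ, mul_smul, hφ0, ← hk]
  refine ⟨ι0.comp (k : L →+* L), σ, fun x => ?_⟩
  change σ (ι0 (k x)) = ι0 (k (c x))
  rw [hg]
  congr 1
  exact (congrArg (fun e : Gal(L/ℚ) => e x) hck).symm

end Local

end Pool.Agent.W522.C
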