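import Pool.Agent.W522.C.Fam

/-! Transport of the theorem to the definitions of the final statement. -/

set_option autoImplicit false

namespace Pool.Agent.W522.C

open Polynomial Module

variable {G : Type*} [Group G]

/-- the same family -/
def toFamily (S : Fam G) : PairedFamily G where
  V ℓ := (S ℓ).V
  grp ℓ := (S ℓ).grp
  mod ℓ := (S ℓ).mod
  fin ℓ := (S ℓ).fin
  ρ ℓ := (S ℓ).ρ
  form ℓ := (S ℓ).form
  nondeg ℓ := (S ℓ).nondeg
  refl ℓ := (S ℓ).refl
  mult ℓ := (S ℓ).mult
  mult_spec ℓ := (S ℓ).mult_spec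

lemma semisimple_toFamily {S : Fam G} {ℓ : Nat.Primes} (h : (toFamily S).Semisimple ℓ) :
    (S ℓ).Semisimple := h

lemma isPure_toFamily {S : Fam G} {bad : Finset ℕ} {g : G} {P : ℤ[X]} {q : ℕ}
    (h : Pure S bad g P q) : IsPure (toFamily S) bad g P q where
  pos := h.pos
  charpoly := h.charpoly
  mult := h.mult
  abs := h.abs

/-- the same system -/
def toWitness {S : Fam G} (w : System S) : Witness (toFamily S) where
  ι := w.ι
  fintype := w.fintype
  bad := w.bad
  g := w.g
  P := w.P
  q := w.q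
  pure i := isPure_toFamily (w.pure i)
  sep r hr := by
    obtain ⟨i, hi⟩ := w.sep r hr
    exact ⟨i, fun f h1 h2 h3 => hi ⟨f, h1, h2, h3⟩⟩

lemma field_toWitness {S : Fam G} (w : System S) : (toWitness w).field = w.field := by
  unfold Witness.field System.field rootField
  congr 1
  ext z
  constructor
  · rintro ⟨i, hi⟩
    exact ⟨_, ⟨i, rfl⟩, hi⟩
  · rintro ⟨_, ⟨i, rfl⟩, hi⟩
    exact ⟨i, hi⟩

theorem density_core {S : Fam G} (W : Set (System S)) (B : ℕ) (E : IntermediateField ℚ ℂ)
    (hE : FiniteGalois E) (hB : ∀ w ∈ W, deg w.field ≤ B) (hcore : Core W E) :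
    SemisimpleForDensity S E := by
  refine (semisimple_family (S := toFamily S) (toWitness '' W) E hE.1
    (isGalois_trans _ _ hE.2) (B := B) ?_ ?_).mono fun ℓ _ h => ?_
  · rintro _ ⟨w, hw, rfl⟩
    rw [field_toWitness]
    exact hB w hw
  · intro M hM
    obtain ⟨w, hw, h⟩ := hcore M hM
    exact ⟨_, ⟨w, hw, rfl⟩, by rw [field_toWitness]; exact h⟩
  · obtain ⟨h1, h2⟩ := h
    exact ⟨h1, semisimple_toFamily h2⟩

theorem density_system {S : Fam G} (w : System S) : SemisimpleForDensity S w.field := by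
  have h1 := semisimple_one (toWitness w)
  rw [field_toWitness] at h1
  refine h1.mono fun ℓ _ h => ?_
  obtain ⟨h1, h2⟩ := h
  exact ⟨h1, semisimple_toFamily h2⟩

theorem density_single {S : Fam G} (bad : Finset ℕ) (g : G) (P : ℤ[X]) (q : ℕ)
    (h : Pure S bad g P q) (hP : NoMultipleRoots P) : SemisimpleForDensity S (rootField {P}) := by
  have h1 := semisimple_one (Witness.single bad g P q (isPure_toFamily h) hP)
  have h2 : (Witness.single bad g P q (isPure_toFamily h) hP).field = rootField {P} := by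
    unfold Witness.field rootField
    congr 1
    ext z
    constructor
    · rintro ⟨_, hz⟩
      exact ⟨P, rfl, hz⟩
    · rintro ⟨_, rfl, hz⟩
      exact ⟨(), hz⟩
  rw [h2] at h1
  refine h1.mono fun ℓ _ h => ?_
  obtain ⟨h1, h2⟩ := h
  exact ⟨h1, semisimple_toFamily h2⟩

end Pool.Agent.W522.C
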