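import Pool.Agent.W522.C.C1

/-! Primes with Frobenius element in a given set: lower density. -/

set_option autoImplicit false

namespace Pool.Agent.W522.C

open Pool.Agent.W401.Cheb NumberField Filter Topology Finset

/-- The set `S` of natural numbers contains a set of prime numbers of lower natural density at
least `δ`: for every `ε > 0` and all large `N`, at least `(δ - ε) π(N)` prime numbers `ℓ ≤ N`
belong to `S`. -/
def LowerDensity (S : Set ℕ) (δ : ℝ) : Prop :=
  ∀ ε : ℝ, 0 < ε → ∀ᶠ N : ℕ in atTop,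
    (δ - ε) * (Nat.primeCounting N : ℝ) ≤ (Nat.card {ℓ : ℕ // ℓ.Prime ∧ ℓ ≤ N ∧ ℓ ∈ S} : ℝ)

open scoped Classical in
lemma card_eq (S : Set ℕ) (N : ℕ) :
    Nat.card {ℓ : ℕ // ℓ.Prime ∧ ℓ ≤ N ∧ ℓ ∈ S} = ((pr N).filter (· ∈ S)).card := by
  rw [← Nat.card_eq_finsetCard]
  apply Nat.card_congr
  refine Equiv.subtypeEquivRight fun ℓ => ?_
  unfold pr
  simp only [mem_filter, mem_range, Nat.lt_succ_iff]
  tauto

lemma LowerDensity.mono {S S' : Set ℕ} {δ : ℝ} (h : LowerDensity S δ)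
    (hS : ∀ ℓ : ℕ, ℓ.Prime → ℓ ∈ S → ℓ ∈ S') : LowerDensity S' δ := by
  classical
  intro ε hε
  filter_upwards [h ε hε] with N hN
  refine hN.trans ?_
  rw [card_eq, card_eq]
  norm_cast
  apply card_le_card
  intro ℓ hℓ
  rw [mem_filter] at hℓ ⊢
  refine ⟨hℓ.1, hS ℓ ?_ hℓ.2⟩
  have := hℓ.1
  unfold pr at this
  exact (mem_filter.1 this).2

section
variable {L : Type} [Field L] [NumberField L] [IsGalois ℚ L] {ℓ : ℕ} [Fact ℓ.Prime]

lemma sum_xp_le (hT : TorAt L ℓ) (T : Finset Gal(L/ℚ)) :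
    ∑ g ∈ T, xp L g ℓ ≤ Nat.card Gal(L/ℚ) := by
  classical
  have hℓ : ℓ.Prime := Fact.out
  have := finite_hom hT
  let := Fintype.ofFinite (𝓞 L →+* AlgebraicClosure (ZMod ℓ))
  have h1 : ∀ g, xp L g ℓ = (univ.filter fun φ : 𝓞 L →+* AlgebraicClosure (ZMod ℓ) =>
      HasFrob ℓ φ g).card := by
    intro g
    unfold xp
    rw [dif_pos hℓ, Nat.card_eq_fintype_card, Fintype.card_subtype]
  rw [sum_congr rfl fun g _ => h1 g, ← card_biUnion]
  · refine (card_le_univ _).trans ?_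
    rw [← Nat.card_eq_fintype_card, hT.1]
  · intro g _ g' _ hne
    rw [Function.onFun, disjoint_left]
    intro φ h2 h3
    rw [mem_filter] at h2 h3
    exact hne (frob_unique hT h2.2 h3.2)

end

/-- the primes with a Frobenius element in a set `T` have lower density at least `|T| / |G|` -/
theorem lower_density (L : Type) [Field L] [NumberField L] [IsGalois ℚ L] (T : Finset Gal(L/ℚ))
    {D : ℕ} (hD : 0 < D) (hT : ∀ (p : ℕ) [Fact p.Prime], ¬ p ∣ D → TorAt L p) :
    LowerDensity {ℓ | ¬ ℓ ∣ D ∧ ∃ g ∈ T, xp L g ℓ ≠ 0} (T.card / Nat.card Gal(L/ℚ)) := by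
  classical
  set n : ℕ := Nat.card Gal(L/ℚ) with hn
  have hn0 : 0 < n := Nat.card_pos
  have hn1 : (0 : ℝ) < n := by exact_mod_cast hn0
  set S : Set ℕ := {ℓ | ¬ ℓ ∣ D ∧ ∃ g ∈ T, xp L g ℓ ≠ 0} with hS
  have h1 : Tendsto (M fun p => ∑ g ∈ T, (xp L g p : ℝ)) atTop (𝓝 (T.card : ℝ)) := by
    have h2 : ∀ N, M (fun p => ∑ g ∈ T, (xp L g p : ℝ)) N = ∑ g ∈ T, M (fun p => (xp L g p : ℝ)) N := by
      intro N
      unfold M
      rw [← sum_div, sum_comm]
    have h3 : Tendsto (fun N => ∑ g ∈ T, M (fun p => (xp L g p : ℝ)) N) atTop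
        (𝓝 (∑ g ∈ T, (1 : ℝ))) := tendsto_finsetSum _ fun g _ => chebotarev L g
    rw [sum_const, nsmul_eq_mul, mul_one] at h3
    exact h3.congr fun N => (h2 N).symm
  have h2 : Tendsto (M fun p => if p ∣ D then 0 else ∑ g ∈ T, (xp L g p : ℝ)) atTop
      (𝓝 (T.card : ℝ)) := M_congr hD (fun p _ hp => if_neg hp) h1
  intro ε hε
  have h3 := h2.eventually (lt_mem_nhds (show (T.card : ℝ) - ε * n < T.card by
    have := mul_pos hε hn1
    linarith))
  filter_upwards [h3, eventually_ge_atTop 2] with N hN hN2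
  have hpi : (0 : ℝ) < Nat.primeCounting N := by
    have h5 : 0 < Nat.primeCounting N := by
      have := Nat.monotone_primeCounting hN2
      have h6 : Nat.primeCounting 2 = 1 := by decide
      omega
    exact_mod_cast h5
  have h4 : ∑ p ∈ pr N, (if p ∣ D then 0 else ∑ g ∈ T, (xp L g p : ℝ)) ≤
      n * ((pr N).filter (· ∈ S)).card := by
    rw [card_filter, Nat.cast_sum, mul_sum]
    refine sum_le_sum fun p hp => ?_
    have hpp : p.Prime := by
      unfold pr at hp
      exact (mem_filter.1 hp).2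
    have : Fact p.Prime := ⟨hpp⟩
    by_cases hpD : p ∣ D
    · rw [if_pos hpD]
      positivity
    · rw [if_neg hpD]
      by_cases hpS : p ∈ S
      · rw [if_pos hpS]
        have h6 := sum_xp_le (hT p hpD) T
        rw [Nat.cast_one, mul_one]
        exact_mod_cast h6
      · rw [if_neg hpS]
        have h6 : ∑ g ∈ T, (xp L g p : ℝ) = 0 := by
          refine sum_eq_zero fun g hg => ?_
          by_contra h7
          exact hpS ⟨hpD, g, hg, fun h8 => h7 (by rw [h8, Nat.cast_zero])⟩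
        rw [h6]
        simp
  rw [card_eq]
  unfold M at hN
  rw [lt_div_iff₀ hpi] at hN
  have h5 : ((T.card : ℝ) - ε * n) * Nat.primeCounting N ≤ n * ((pr N).filter (· ∈ S)).card :=
    hN.le.trans h4
  have h6 : ((T.card : ℝ) / n - ε) * Nat.primeCounting N =
      (((T.card : ℝ) - ε * n) * Nat.primeCounting N) / n := by
    field_simp
  rw [h6, div_le_iff₀ hn1]
  refine h5.trans (le_of_eq ?_)
  rw [mul_comm]
  congr!

end Pool.Agent.W522.C
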