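import Pool.Agent.W522.C.C2

/-! Complex conjugation as a Frobenius element for the splitting field of a polynomial. -/

set_option autoImplicit false

namespace Pool.Agent.W522.C

open Pool.Agent.W401.Cheb NumberField Filter Topology Finset Polynomial

/-- the splitting field of the polynomial `P` inside the complex numbers -/
noncomputable abbrev SF (P : ℤ[X]) : IntermediateField ℚ ℂ :=
  IntermediateField.adjoin ℚ ((P.map (algebraMap ℤ ℚ)).rootSet ℂ)

instance isSF (P : ℤ[X]) : IsSplittingField ℚ (SF P) (P.map (algebraMap ℤ ℚ)) :=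
  IntermediateField.adjoin_rootSet_isSplittingField (IsAlgClosed.splits _)

instance finSF (P : ℤ[X]) : FiniteDimensional ℚ (SF P) :=
  IsSplittingField.finiteDimensional _ (P.map (algebraMap ℤ ℚ))

instance numSF (P : ℤ[X]) : NumberField (SF P) where

instance galSF (P : ℤ[X]) : IsGalois ℚ (SF P) where
  to_normal := Normal.of_isSplittingField (P.map (algebraMap ℤ ℚ))

/-- complex conjugation on the splitting field -/
noncomputable def conjSF (P : ℤ[X]) : Gal(SF P/ℚ) :=
  ((Complex.conjAe.restrictScalars ℚ : ℂ ≃ₐ[ℚ] ℂ)).restrictNormal (SF P)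

lemma conjSF_apply (P : ℤ[X]) (x : SF P) : ((conjSF P x : SF P) : ℂ) = (starRingEnd ℂ) x :=
  (Complex.conjAe.restrictScalars ℚ : ℂ ≃ₐ[ℚ] ℂ).restrictNormal_commutes (SF P) x

/-- Some automorphism `σ` of the algebraic closure of `ℚ_ℓ` over `ℚ_ℓ` acts on the splitting field
of `P` as the complex conjugation: `σ (ι x) = ι (x̄)`, for some embedding `ι`. -/
def ConjLift (P : ℤ[X]) (ℓ : ℕ) [Fact ℓ.Prime] : Prop :=
  ∃ (ι : SF P →+* AlgebraicClosure ℚ_[ℓ])
    (σ : AlgebraicClosure ℚ_[ℓ] ≃ₐ[ℚ_[ℓ]] AlgebraicClosure ℚ_[ℓ]),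
      ∀ x, σ (ι x) = ι (conjSF P x)

lemma card_galSF (P : ℤ[X]) : Nat.card Gal(SF P/ℚ) = Module.finrank ℚ (SF P) := by
  exact IsGalois.card_aut_eq_finrank ℚ (SF P)

/-- **Positive density** of the primes `ℓ` for which the complex conjugation is realised over
`ℚ_ℓ`. -/
theorem density_conjLift (P : ℤ[X]) :
    LowerDensity {ℓ | ∃ h : ℓ.Prime, @ConjLift P ℓ ⟨h⟩} (1 / Module.finrank ℚ (SF P)) := by
  obtain ⟨D, hD, hT⟩ := torsor (SF P)
  have h1 := lower_density (SF P) {conjSF P} hD hT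
  rw [card_singleton, card_galSF, Nat.cast_one] at h1
  refine h1.mono fun ℓ hℓ hS => ⟨hℓ, ?_⟩
  obtain ⟨h2, g, hg, h3⟩ := hS
  rw [mem_singleton] at hg
  subst hg
  have : Fact ℓ.Prime := ⟨hℓ⟩
  exact sigma_lift (SF P) (conjSF P) (hT ℓ h2) h3

end Pool.Agent.W522.C
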