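import Pool.Agent.W522.C.C3
import Pool.Agent.W522.C.C4

/-! From a factorisation over `ℚ_ℓ` to a factorisation over `ℝ`. -/

set_option autoImplicit false

namespace Pool.Agent.W522.C

open Polynomial Module

section
variable {K E : Type*} [Field K] [Infinite K] [Field E] [Algebra K E]

lemma map_sigma (F : K[X]) (σ : E ≃ₐ[K] E) :
    (F.map (algebraMap K E)).map (σ : E →+* E) = F.map (algebraMap K E) := by
  rw [Polynomial.map_map]
  congr 1
  apply RingHom.ext
  intro x
  exact σ.commutes x

lemma roots_sigma (F : K[X]) (hsplit : (F.map (algebraMap K E)).Splits) (σ : E ≃ₐ[K] E) :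
    (F.map (algebraMap K E)).roots.map σ = (F.map (algebraMap K E)).roots := by
  conv_rhs => rw [← map_sigma F σ]
  exact (hsplit.roots_map (σ : E →+* E)).symm

lemma dvd_dual (F f : K[X]) (hF : F.Monic) (hsplit : (F.map (algebraMap K E)).Splits)
    {c d : K} (hd : d ≠ 0)
    (hev : ∀ t : K, t ≠ 0 → f.eval t * d = (-t) ^ F.natDegree * F.eval (c / t))
    (σ : E ≃ₐ[K] E)
    (hσ : ∀ a ∈ (F.map (algebraMap K E)).roots, σ a * a = algebraMap K E c) :
    F.map (algebraMap K E) ∣ f.map (algebraMap K E) := by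
  set j := algebraMap K E with hj
  set F' := F.map j with hF'
  have hF'm : F'.Monic := hF.map j
  have hprod : F' = (F'.roots.map fun a => X - C a).prod := hsplit.eq_prod_roots_of_monic hF'm
  have hcard : Multiset.card F'.roots = F.natDegree := by
    rw [← hsplit.natDegree_eq_card_roots, hF', Polynomial.natDegree_map]
  have h1 : f.map j * C (j d) = (F'.roots.map fun a => C a * X - C (j c)).prod := by
    apply Polynomial.eq_of_infinite_eval_eq
    have hinf : (Set.range fun t : {t : K // t ≠ 0} => j t.1).Infinite := by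
      have : Infinite {t : K // t ≠ 0} := by
        have h2 : ({0}ᶜ : Set K).Infinite := (Set.finite_singleton (0 : K)).infinite_compl
        exact h2.to_subtype
      exact Set.infinite_range_of_injective (j.injective.comp Subtype.val_injective)
    refine hinf.mono ?_
    rintro _ ⟨⟨t, ht⟩, rfl⟩
    change eval (j t) _ = eval (j t) _
    have hjt : j t ≠ 0 := (map_ne_zero j).2 ht
    rw [eval_mul, eval_C, eval_map, eval₂_hom, ← map_mul, hev t ht, map_mul, map_pow, map_neg,
      ← eval₂_hom j (c / t), ← eval_map]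
    change (-j t) ^ F.natDegree * eval (j (c / t)) F' = _
    rw [hprod, eval_multiset_prod, eval_multiset_prod, Multiset.map_map, Multiset.map_map, ← hcard,
      ← hprod]
    rw [← Multiset.prod_replicate, ← Multiset.map_const', ← Multiset.prod_map_mul]
    congr 1
    apply Multiset.map_congr rfl
    intro a _
    simp only [Function.comp_apply, eval_sub, eval_X, eval_C, eval_mul, map_div₀]
    field_simp
    ring
  have h2 : (F'.roots.map fun a => C a * X - C (j c)).prod =
      C F'.roots.prod * (F'.roots.map fun a => X - C (σ a)).prod := by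
    have h3 : (C F'.roots.prod : E[X]) = (F'.roots.map fun a => C a).prod := by
      rw [map_multiset_prod]
    rw [h3, ← Multiset.prod_map_mul]
    congr 1
    apply Multiset.map_congr rfl
    intro a ha
    rw [← hσ a ha, map_mul]
    ring
  have h3 : (F'.roots.map fun a => X - C (σ a)).prod = F' := by
    have h4 := roots_sigma F hsplit σ
    change F'.roots.map σ = F'.roots at h4
    conv_rhs => rw [hprod, ← h4]
    rw [Multiset.map_map]
    rfl
  rw [h3] at h2
  have h4 : F' ∣ f.map j * C (j d) := by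
    rw [h1, h2]
    exact dvd_mul_left _ _
  have h5 : IsUnit (C (j d) : E[X]) := isUnit_C.2 ((map_ne_zero j).2 hd).isUnit
  exact (h5.dvd_mul_right).1 h4

end

section Transfer

variable {P Pv : ℤ[X]} {c : ℕ} {ℓ : ℕ} [Fact ℓ.Prime]

lemma splitsSF (hdvd : Pv ∣ P) (hP : P ≠ 0) : (Pv.map (Int.castRingHom (SF P))).Splits := by
  have h1 : (P.map (Int.castRingHom (SF P))).Splits := by
    have h2 := (isSF P).splits
    rw [Polynomial.map_map] at h2
    have h3 : (algebraMap ℚ (SF P)).comp (algebraMap ℤ ℚ) = Int.castRingHom (SF P) :=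
      RingHom.ext_int _ _
    rw [h3] at h2
    exact h2
  refine h1.of_dvd ?_ (Polynomial.map_dvd (Int.castRingHom (SF P)) hdvd)
  exact (Polynomial.map_ne_zero_iff (RingHom.injective_int (Int.castRingHom (SF P)))).2 hP

lemma conj_mul (hpure : ∀ z : ℂ, aeval z Pv = 0 → ‖z‖ ^ 2 = c) {x : SF P}
    (hx : x ∈ (Pv.map (Int.castRingHom (SF P))).roots) : conjSF P x * x = (c : SF P) := by
  have h1 : aeval (x : ℂ) Pv = 0 := by
    have h2 := (Polynomial.mem_roots'.1 hx).2
    rw [IsRoot.def, eval_map] at h2
    have h3 := congrArg (algebraMap (SF P) ℂ) h2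
    rw [map_zero, Polynomial.hom_eval₂] at h3
    rw [aeval_def]
    have h4 : algebraMap ℤ ℂ = (algebraMap (SF P) ℂ).comp (Int.castRingHom (SF P)) :=
      RingHom.ext_int _ _
    rw [h4]
    exact h3
  apply Subtype.val_injective
  change ((conjSF P x : SF P) : ℂ) * (x : ℂ) = ((c : SF P) : ℂ)
  rw [conjSF_apply, mul_comm, Complex.mul_conj, Complex.normSq_eq_norm_sq, hpure _ h1]
  push_cast
  rfl

/-- **Transfer**: a factor `F f` over `ℚ_ℓ` gives a square factor over `ℝ`. -/
theorem real_square (hPv : Pv.Monic) (hdvd : Pv ∣ P) (hP : P ≠ 0)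
    (hpure : ∀ z : ℂ, aeval z Pv = 0 → ‖z‖ ^ 2 = c) (hlift : ConjLift P ℓ)
    (F f : ℚ_[ℓ][X]) (hF : F.Monic) {d : ℚ_[ℓ]} (hd : d ≠ 0)
    (hev : ∀ t : ℚ_[ℓ], t ≠ 0 → f.eval t * d = (-t) ^ F.natDegree * F.eval (c / t))
    (hFf : F * f ∣ Pv.map (Int.castRingHom ℚ_[ℓ])) :
    ∃ G : ℝ[X], G.Monic ∧ G.natDegree = F.natDegree ∧ G ^ 2 ∣ Pv.map (Int.castRingHom ℝ) := by
  classical
  obtain ⟨ι, σ, hσ⟩ := hlift
  set E := AlgebraicClosure ℚ_[ℓ] with hE
  set j := algebraMap ℚ_[ℓ] E with hj
  set PL := Pv.map (Int.castRingHom (SF P)) with hPL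
  have hPLs : PL.Splits := splitsSF hdvd hP
  have hPLm : PL.Monic := hPv.map _
  have hPE : (Pv.map (Int.castRingHom ℚ_[ℓ])).map j = PL.map ι := by
    rw [hPL, Polynomial.map_map, Polynomial.map_map]
    congr 1
    exact RingHom.ext_int _ _
  have hroots : (PL.map ι).roots = PL.roots.map ι := hPLs.roots_map ι
  have hPE0 : PL.map ι ≠ 0 := (hPLm.map ι).ne_zero
  have hsplit : (F.map j).Splits := IsAlgClosed.splits _
  have hFdvd : F.map j * f.map j ∣ PL.map ι := by
    rw [← hPE, ← Polynomial.map_mul]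
    exact Polynomial.map_dvd j hFf
  have hle : (F.map j).roots ≤ PL.roots.map ι := by
    rw [← hroots]
    exact Polynomial.roots.le_of_dvd hPE0 ((dvd_mul_right _ _).trans hFdvd)
  have hσa : ∀ a ∈ (F.map j).roots, σ a * a = j ((c : ℕ) : ℚ_[ℓ]) := by
    intro a ha
    obtain ⟨x, hx, rfl⟩ := Multiset.mem_map.1 (Multiset.mem_of_le hle ha)
    rw [hσ, ← map_mul, conj_mul hpure hx, map_natCast, map_natCast]
  have h1 := dvd_dual F f hF hsplit hd hev σ hσa
  have h2 : F.map j * F.map j ∣ PL.map ι := (mul_dvd_mul_left _ h1).trans hFdvd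
  have hF0 : F.map j ≠ 0 := (hF.map j).ne_zero
  have h3 : (F.map j).roots + (F.map j).roots ≤ PL.roots.map ι := by
    rw [← hroots, ← Polynomial.roots_mul (mul_ne_zero hF0 hF0)]
    exact Polynomial.roots.le_of_dvd hPE0 h2
  -- pull back to the splitting field
  set r : E → SF P := Function.invFun ι with hr
  have hrι : ∀ x, r (ι x) = x := Function.leftInverse_invFun ι.injective
  set Cm := (F.map j).roots.map r with hCm
  have hCι : Cm.map ι = (F.map j).roots := by
    rw [hCm, Multiset.map_map]
    conv_rhs => rw [← Multiset.map_id (F.map j).roots]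
    apply Multiset.map_congr rfl
    intro a ha
    obtain ⟨x, hx, rfl⟩ := Multiset.mem_map.1 (Multiset.mem_of_le hle ha)
    change ι (r (ι x)) = _
    rw [hrι]
    rfl
  have hrmap : ∀ B : Multiset (SF P), (B.map ι).map r = B := by
    intro B
    rw [Multiset.map_map]
    conv_rhs => rw [← Multiset.map_id B]
    exact Multiset.map_congr rfl fun x _ => hrι x
  have hCC : Cm + Cm ≤ PL.roots := by
    have h4 := Multiset.map_le_map (f := r) h3
    rwa [Multiset.map_add, hrmap] at h4
  have hconj : Cm.map (conjSF P) = Cm := by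
    have h4 : (Cm.map (conjSF P)).map ι = Cm.map ι := by
      rw [Multiset.map_map]
      have h5 : (Cm.map ι).map σ = Cm.map (ι ∘ conjSF P) :=
        (Multiset.map_map σ ι Cm).trans (Multiset.map_congr rfl fun x _ => hσ x)
      rw [← h5, hCι]
      exact roots_sigma F hsplit σ
    rw [← hrmap (Cm.map (conjSF P)), h4, hrmap]
  clear_value Cm
  -- the complex polynomial
  set jL := algebraMap (SF P) ℂ with hjL
  set Gc : ℂ[X] := ((Cm.map jL).map fun x => X - C x).prod with hGc
  have hGcm : Gc.Monic := monic_multiset_prod_of_monic _ _ fun x _ => monic_X_sub_C _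
  have hGcdeg : Gc.natDegree = F.natDegree := by
    rw [hGc, natDegree_multiset_prod_X_sub_C_eq_card, Multiset.card_map, hCm, Multiset.card_map,
      ← hsplit.natDegree_eq_card_roots, Polynomial.natDegree_map]
  have hGcconj : Gc.map (starRingEnd ℂ) = Gc := by
    rw [hGc, Polynomial.map_multiset_prod, Multiset.map_map]
    have h4 : ((Cm.map jL).map ((Polynomial.map (starRingEnd ℂ)) ∘ fun x => X - C x)) =
        ((Cm.map (conjSF P)).map jL).map fun x => X - C x := by
      rw [Multiset.map_map, Multiset.map_map, Multiset.map_map]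
      apply Multiset.map_congr rfl
      intro x _
      simp only [Function.comp_apply, Polynomial.map_sub, Polynomial.map_X, Polynomial.map_C]
      congr 2
      exact (conjSF_apply P x).symm
    rw [h4, hconj]
  have hlifts : Gc ∈ Polynomial.lifts Complex.ofRealHom := by
    rw [Polynomial.lifts_iff_coeff_lifts]
    intro n
    have h4 := congrArg (fun p => coeff p n) hGcconj
    simp only [coeff_map] at h4
    exact ⟨(Gc.coeff n).re, Complex.conj_eq_iff_re.1 h4⟩
  obtain ⟨G, hG1, hG2, hG3⟩ := lifts_and_natDegree_eq_and_monic hlifts hGcm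
  refine ⟨G, hG3, hG2.trans hGcdeg, ?_⟩
  rw [← Polynomial.map_dvd_map' Complex.ofRealHom, Polynomial.map_pow, hG1, Polynomial.map_map]
  have h4 : Pv.map (Complex.ofRealHom.comp (Int.castRingHom ℝ)) = PL.map jL := by
    rw [hPL, Polynomial.map_map]
    have h7 : Complex.ofRealHom.comp (Int.castRingHom ℝ) = jL.comp (Int.castRingHom (SF P)) :=
      RingHom.ext_int _ _
    rw [h7]
  rw [h4, pow_two, hGc, ← Multiset.prod_add, ← Multiset.map_add, ← Multiset.map_add]
  have h5 : PL.map jL = ((PL.roots.map jL).map fun x => X - C x).prod := by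
    have h6 : (PL.map jL).Splits := hPLs.map jL
    rw [← hPLs.roots_map jL]
    exact h6.eq_prod_roots_of_monic (hPLm.map jL)
  rw [h5]
  exact Multiset.prod_dvd_prod_of_le (Multiset.map_le_map (Multiset.map_le_map hCC))

end Transfer

end Pool.Agent.W522.C
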