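import Pool.Agent.W522.C.C3

/-! Galois theory of splitting fields in `ℂ`: restriction and gluing. -/

set_option autoImplicit false

namespace Pool.Agent.W522.C

open NumberField Finset Polynomial IntermediateField

section Gal

variable {F K : Type*} [Field F] [Field K] [Algebra F K] {L M : IntermediateField F K}
  [FiniteDimensional F L] [IsGalois F L] [FiniteDimensional F M] [IsGalois F M]

/-- restriction of automorphisms -/
lemma exists_res (h : L ≤ M) : ∃ ρ : Gal(M/F) →* Gal(L/F), Function.Surjective ρ ∧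
    ∀ (g : Gal(M/F)) (x : L), ((ρ g x : L) : K) = (g (inclusion h x) : M) := by
  let : Algebra L M := (inclusion h).toRingHom.toAlgebra
  have : IsScalarTower F L M := IsScalarTower.of_algebraMap_eq fun x => by
    exact ((inclusion h).commutes x).symm
  refine ⟨AlgEquiv.restrictNormalHom L, AlgEquiv.restrictNormalHom_surjective M, ?_⟩
  intro g x
  have h1 := AlgEquiv.restrictNormal_commutes g L x
  exact congrArg (fun y : M => (y : K)) h1

/-- **Gluing** of automorphisms which agree on the intersection. -/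
lemma exists_glue {N : IntermediateField F K} [FiniteDimensional F N] [IsGalois F N]
    (hL : L ≤ N) (hM : M ≤ N) (g : Gal(M/F)) (h : Gal(L/F))
    (hgh : ∀ (x : K) (hx : x ∈ M) (hx' : x ∈ L), ((g ⟨x, hx⟩ : M) : K) = (h ⟨x, hx'⟩ : L)) :
    ∃ k : Gal(N/F), (∀ x : M, ((k (inclusion hM x) : N) : K) = (g x : M)) ∧
      ∀ x : L, ((k (inclusion hL x) : N) : K) = (h x : L) := by
  obtain ⟨ρM, hρM, hM1⟩ := exists_res hM
  obtain ⟨ρL, -, hL1⟩ := exists_res hL
  obtain ⟨g1, hg1⟩ := hρM g
  set H : Subgroup Gal(L/F) := ρM.ker.map ρL with hH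
  -- elements of `L` fixed by `H` lie in `M`
  have hfix : ∀ x : L, x ∈ fixedField H → (x : K) ∈ M := by
    intro x hx
    have h1 : inclusion hL x ∈ fixedField (fixingSubgroup (restrict hM)) := by
      rintro ⟨k, hk⟩
      have hk1 : k ∈ ρM.ker := by
        rw [MonoidHom.mem_ker]
        apply AlgEquiv.ext
        intro y
        apply Subtype.ext
        rw [hM1]
        have h2 := hk ⟨inclusion hM y, (mem_restrict hM _).2 y.2⟩
        exact congrArg (fun z : N => (z : K)) h2
      have h3 : ρL k ∈ H := ⟨k, hk1, rfl⟩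
      have h4 : ρL k x = x := hx ⟨_, h3⟩
      change k (inclusion hL x) = inclusion hL x
      apply Subtype.ext
      rw [← hL1, h4]
      rfl
    rw [IsGalois.fixedField_fixingSubgroup, mem_restrict] at h1
    exact h1
  have hu : (ρL g1)⁻¹ * h ∈ H := by
    rw [← fixingSubgroup_fixedField H]
    rintro ⟨x, hx⟩
    change (ρL g1)⁻¹ (h x) = x
    have hxM := hfix x hx
    have h1 : h x = ρL g1 x := by
      apply Subtype.ext
      rw [hL1]
      have h2 := hM1 g1 ⟨x, hxM⟩
      rw [hg1, hgh x hxM x.2] at h2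
      exact h2
    rw [h1]
    exact (ρL g1).symm_apply_apply x
  obtain ⟨k, hk, hkL⟩ := hu
  refine ⟨g1 * k, fun x => ?_, fun x => ?_⟩
  · rw [← hM1, map_mul, hg1, MonoidHom.mem_ker.1 hk, mul_one]
  · rw [← hL1, map_mul, hkL, mul_inv_cancel_left]

/-- restriction of automorphisms, in terms of elements -/
lemma exists_res2 (h : L ≤ M) : ∃ ρ : Gal(M/F) →* Gal(L/F), Function.Surjective ρ ∧
    ∀ (g : Gal(M/F)) (x : L) (y : M), (x : K) = y → ((ρ g x : L) : K) = (g y : M) := by
  obtain ⟨ρ, h1, h2⟩ := exists_res h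
  refine ⟨ρ, h1, fun g x y hxy => ?_⟩
  have h3 : inclusion h x = y := Subtype.ext hxy
  rw [h2, h3]

/-- gluing, in terms of elements -/
lemma exists_glue2 {N : IntermediateField F K} [FiniteDimensional F N] [IsGalois F N]
    (hL : L ≤ N) (hM : M ≤ N) (g : Gal(M/F)) (h : Gal(L/F))
    (hgh : ∀ (x : M) (y : L), (x : K) = y → ((g x : M) : K) = (h y : L)) :
    ∃ k : Gal(N/F), (∀ (x : M) (z : N), (x : K) = z → ((k z : N) : K) = (g x : M)) ∧
      ∀ (x : L) (z : N), (x : K) = z → ((k z : N) : K) = (h x : L) := by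
  obtain ⟨k, h1, h2⟩ := exists_glue hL hM g h (fun x hx hx' => hgh _ _ rfl)
  refine ⟨k, fun x z hxz => ?_, fun x z hxz => ?_⟩
  · have h3 : inclusion hM x = z := Subtype.ext hxz
    rw [← h3, h1]
  · have h3 : inclusion hL x = z := Subtype.ext hxz
    rw [← h3, h2]

end Gal

end Pool.Agent.W522.C
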