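import Pool.Agent.W522.C.C6

/-! Finite Galois theory: automorphisms inducing a given one on some member of a family. -/

set_option autoImplicit false
set_option linter.unusedSectionVars false

namespace Pool.Agent.W522.C

open Finset IntermediateField

/-- all fibres of a surjective homomorphism of finite groups have the same size -/
lemma card_fiber {G G' : Type*} [Group G] [Group G'] [Fintype G] [Fintype G'] [DecidableEq G]
    (φ : G' →* G) (hφ : Function.Surjective φ) (g : G) :
    (univ.filter fun x => φ x = g).card * Fintype.card G = Fintype.card G' := by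
  have h1 : ∀ y ∈ (univ : Finset G), (univ.filter fun x => φ x = y).card =
      (univ.filter fun x => φ x = g).card := by
    intro y _
    obtain ⟨c, hc⟩ := hφ (y⁻¹ * g)
    apply Finset.card_nbij' (fun x => x * c) (fun x => x * c⁻¹)
    · intro x hx
      simp only [coe_filter, mem_univ, true_and, Set.mem_ofPred_eq] at hx ⊢
      rw [map_mul, hx, hc, mul_inv_cancel_left]
    · intro x hx
      simp only [coe_filter, mem_univ, true_and, Set.mem_ofPred_eq] at hx ⊢
      rw [map_mul, map_inv, hx, hc, mul_inv_rev, inv_inv, mul_inv_cancel_left]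
    · intro x _
      exact mul_inv_cancel_right x c
    · intro x _
      exact inv_mul_cancel_right x c
  have h2 := Finset.card_eq_sum_card_fiberwise (s := (univ : Finset G')) (t := (univ : Finset G))
    (f := φ) (fun x _ => mem_univ _)
  rw [Finset.sum_congr rfl h1, Finset.sum_const, smul_eq_mul, mul_comm, Finset.card_univ,
    Finset.card_univ] at h2
  exact h2.symm

section Rec

variable {F K : Type*} [Field F] [Field K] [Algebra F K] (c : K ≃ₐ[F] K)

/-- the automorphism `g` of `M` is given by `c` on `R` -/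
def IsOn {M : IntermediateField F K} (g : Gal(M/F)) (R : IntermediateField F K) : Prop :=
  R ≤ M ∧ ∀ x : M, (x : K) ∈ R → ((g x : M) : K) = c x

variable {J : Type*} (L : J → IntermediateField F K) (E : IntermediateField F K)

open scoped Classical in
/-- automorphisms which are given by `c` on `E` but on no `L j` -/
noncomputable def bad (M : IntermediateField F K) [FiniteDimensional F M] : Finset Gal(M/F) :=
  univ.filter fun g => IsOn c g E ∧ ∀ j, ¬ IsOn c g (L j)

open scoped Classical in
/-- automorphisms which are given by `c` on some `L j` -/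
noncomputable def good (M : IntermediateField F K) [FiniteDimensional F M] : Finset Gal(M/F) :=
  univ.filter fun g => ∃ j, IsOn c g (L j)

/-- the size of the Galois group -/
noncomputable def gsz (M : IntermediateField F K) : ℕ := Nat.card Gal(M/F)

lemma gsz_pos (M : IntermediateField F K) [FiniteDimensional F M] : 0 < gsz M := Nat.card_pos

variable {c L E}

/-- the restriction of `c` to a normal subfield -/
lemma exists_cres (M : IntermediateField F K) [Normal F M] :
    ∃ g : Gal(M/F), ∀ x : M, ((g x : M) : K) = c x :=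
  ⟨c.restrictNormal M, fun x => c.restrictNormal_commutes M x⟩

lemma card_conj {M : IntermediateField F K} [FiniteDimensional F M] [IsGalois F M]
    [FiniteDimensional F E] [IsGalois F E] (hE : E ≤ M)
    [DecidablePred fun g : Gal(M/F) => IsOn c g E] :
    (univ.filter fun g : Gal(M/F) => IsOn c g E).card * gsz E = gsz M := by
  classical
  obtain ⟨ρ, hρ, h1⟩ := exists_res2 hE
  obtain ⟨cE, hcE⟩ := exists_cres (c := c) E
  have h2 := card_fiber ρ hρ cE
  unfold gsz
  rw [Nat.card_eq_fintype_card, Nat.card_eq_fintype_card, ← h2]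
  congr 2
  apply Finset.filter_congr
  intro g _
  constructor
  · rintro ⟨-, h3⟩
    apply AlgEquiv.ext
    intro x
    apply Subtype.ext
    rw [h1 g x ⟨x, hE x.2⟩ rfl, hcE, h3 ⟨x, hE x.2⟩ x.2]
  · intro h3
    refine ⟨hE, fun x hx => ?_⟩
    rw [← h1 g ⟨x, hx⟩ x rfl, h3, hcE]

lemma card_good_ge {M : IntermediateField F K} [FiniteDimensional F M] [IsGalois F M]
    [FiniteDimensional F E] [IsGalois F E] (hE : E ≤ M) :
    (gsz M : ℝ) / gsz E ≤ (good c L M).card + (bad c L E M).card := by
  classical
  have h1 := card_conj (c := c) hE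
  have h2 : (univ.filter fun g : Gal(M/F) => IsOn c g E).card ≤
      (good c L M).card + (bad c L E M).card := by
    refine le_trans (card_le_card ?_) (card_union_le _ _)
    intro g hg
    rw [mem_filter] at hg
    rw [mem_union]
    unfold good bad
    by_cases h3 : ∃ j, IsOn c g (L j)
    · exact Or.inl (mem_filter.2 ⟨mem_univ _, h3⟩)
    · exact Or.inr (mem_filter.2 ⟨mem_univ _, hg.2, fun j hj => h3 ⟨j, hj⟩⟩)
  rw [div_le_iff₀ (by exact_mod_cast gsz_pos E)]
  rw [← h1]
  push_cast
  apply mul_le_mul_of_nonneg_right _ (Nat.cast_nonneg _)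
  exact_mod_cast h2

lemma gsz_sup_le {M R : IntermediateField F K} [FiniteDimensional F M] [IsGalois F M]
    [FiniteDimensional F R] [IsGalois F R] :
    gsz (M ⊔ R) ≤ gsz M * gsz R := by
  unfold gsz
  rw [IsGalois.card_aut_eq_finrank, IsGalois.card_aut_eq_finrank, IsGalois.card_aut_eq_finrank]
  exact IntermediateField.finrank_sup_le _ _

/-- the recursion step -/
lemma bad_step {M M' : IntermediateField F K} [FiniteDimensional F M] [IsGalois F M]
    [FiniteDimensional F M'] [IsGalois F M']
    [FiniteDimensional F E] [IsGalois F E] [∀ j, FiniteDimensional F (L j)]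
    [∀ j, IsGalois F (L j)] (hE : E ≤ M) (j : J) (hMM' : M ≤ M') (hPM' : L j ≤ M')
    (hsz : gsz M' ≤ gsz M * gsz (L j)) (hdisj : L j ⊓ M ≤ E) :
    ((bad c L E M').card : ℝ) / gsz M' ≤
      (1 - 1 / (gsz (L j) : ℝ)) * ((bad c L E M).card / gsz M) := by
  classical
  obtain ⟨ρ, hρ, h1⟩ := exists_res2 hMM'
  -- the fibres
  set k : ℕ := (univ.filter fun x => ρ x = 1).card with hk
  have hfib : ∀ g, (univ.filter fun x => ρ x = g).card * gsz M = gsz M' := by
    intro g
    have h2 := card_fiber ρ hρ g
    unfold gsz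
    rw [Nat.card_eq_fintype_card, Nat.card_eq_fintype_card, ← h2]
  have hfibk : ∀ g, (univ.filter fun x => ρ x = g).card = k := fun g =>
    Nat.eq_of_mul_eq_mul_right (gsz_pos M) ((hfib g).trans (hfib 1).symm)
  have hkM : k * gsz M = gsz M' := hfib 1
  have hk0 : 0 < k := by
    rcases Nat.eq_zero_or_pos k with h2 | h2
    · rw [h2, zero_mul] at hkM
      exact absurd hkM.symm (gsz_pos M').ne'
    · exact h2
  have hkP : k ≤ gsz (L j) := by
    rw [← hkM, mul_comm] at hsz
    exact Nat.le_of_mul_le_mul_left hsz (gsz_pos M)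
  -- elements of the fibre over a bad element
  obtain ⟨cj, hcj⟩ := exists_cres (c := c) (L j)
  have hglue : ∀ g ∈ bad c L E M, ∃ x, ρ x = g ∧ IsOn c x (L j) := by
    intro g hg
    unfold bad at hg
    have hgF := (mem_filter.1 hg).2.1
    obtain ⟨x, h2, h3⟩ := exists_glue2 hPM' hMM' g cj (by
      intro x y hxy
      have h4 : (x : K) ∈ E := hdisj ⟨by rw [hxy]; exact y.2, x.2⟩
      rw [hgF.2 x h4, hcj, hxy])
    refine ⟨x, ?_, hPM', ?_⟩
    · apply AlgEquiv.ext
      intro y
      apply Subtype.ext
      rw [h1 x y ⟨y, hMM' y.2⟩ rfl]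
      exact h2 y _ rfl
    · intro y hy
      rw [h3 ⟨y, hy⟩ y rfl, hcj]
  have hbound : (bad c L E M').card ≤ (bad c L E M).card * (k - 1) := by
    have h2 : bad c L E M' ⊆ (bad c L E M).biUnion fun g =>
        (univ.filter fun x => ρ x = g).filter fun x => ¬ IsOn c x (L j) := by
      intro x hx
      unfold bad at hx
      obtain ⟨-, hxF, hxP⟩ := mem_filter.1 hx
      rw [mem_biUnion]
      refine ⟨ρ x, ?_, ?_⟩
      · unfold bad
        rw [mem_filter]
        refine ⟨mem_univ _, ⟨hE, fun y hy => ?_⟩, fun i hi => hxP i ?_⟩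
        · rw [h1 x y ⟨y, hMM' y.2⟩ rfl]
          exact hxF.2 _ hy
        · refine ⟨hi.1.trans hMM', fun y hy => ?_⟩
          have h4 := hi.2 ⟨y, hi.1 hy⟩ hy
          rw [h1 x _ y rfl] at h4
          exact h4
      · rw [mem_filter, mem_filter]
        exact ⟨⟨mem_univ _, rfl⟩, hxP j⟩
    refine (card_le_card h2).trans (card_biUnion_le_card_mul _ _ _ ?_)
    intro g hg
    obtain ⟨x, hx1, hx2⟩ := hglue g hg
    have h3 : ((univ.filter fun x => ρ x = g).filter fun x => ¬ IsOn c x (L j)) ⊂
        (univ.filter fun x => ρ x = g) := by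
      rw [Finset.ssubset_iff_of_subset (filter_subset _ _)]
      refine ⟨x, mem_filter.2 ⟨mem_univ _, hx1⟩, fun h4 => ?_⟩
      exact (mem_filter.1 h4).2 hx2
    have h4 := card_lt_card h3
    rw [hfibk g] at h4
    omega
  have hkR : (0 : ℝ) < k := by exact_mod_cast hk0
  have hMR : (0 : ℝ) < gsz M := by exact_mod_cast gsz_pos M
  have hPR : (0 : ℝ) < gsz (L j) := by exact_mod_cast gsz_pos (L j)
  have h5 : (gsz M' : ℝ) = k * gsz M := by rw [← hkM]; push_cast; ring
  have h6 : ((bad c L E M').card : ℝ) ≤ (bad c L E M).card * (k - 1) := by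
    have h7 : ((k - 1 : ℕ) : ℝ) = (k : ℝ) - 1 := by
      rw [Nat.cast_sub hk0, Nat.cast_one]
    rw [← h7]
    exact_mod_cast hbound
  rw [h5, div_le_iff₀ (mul_pos hkR hMR)]
  refine h6.trans ?_
  have h8 : (1 - 1 / (gsz (L j) : ℝ)) * ((bad c L E M).card / gsz M) * (k * gsz M) =
      (bad c L E M).card * (k - k / gsz (L j)) := by
    field_simp
  rw [h8]
  apply mul_le_mul_of_nonneg_left _ (Nat.cast_nonneg _)
  have h9 : (k : ℝ) / gsz (L j) ≤ 1 := by
    rw [div_le_one hPR]
    exact_mod_cast hkP
  linarith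

/-- **The iteration**: there are finite Galois extensions `M` containing `E` for which the
proportion of bad elements is arbitrarily small. -/
theorem exists_small [FiniteDimensional F E] [IsGalois F E] [∀ j, FiniteDimensional F (L j)]
    [∀ j, IsGalois F (L j)] {B : ℕ} (hB : ∀ j, gsz (L j) ≤ B)
    (hdisj : ∀ (M : IntermediateField F K), FiniteDimensional F M → IsGalois F M →
      ∃ j, L j ⊓ M ≤ E) (N : ℕ) :
    ∃ (M : IntermediateField F K) (_ : FiniteDimensional F M) (_ : IsGalois F M), E ≤ M ∧
      ((bad c L E M).card : ℝ) / gsz M ≤ (1 - 1 / (B : ℝ)) ^ N := by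
  induction N with
  | zero =>
    refine ⟨E, inferInstance, inferInstance, le_rfl, ?_⟩
    rw [pow_zero, div_le_one (by exact_mod_cast gsz_pos E)]
    unfold gsz
    rw [Nat.card_eq_fintype_card]
    exact_mod_cast card_le_univ _
  | succ N ih =>
    obtain ⟨M, i1, i2, hEM, hM⟩ := ih
    obtain ⟨j, hj⟩ := hdisj M i1 i2
    refine ⟨M ⊔ L j, inferInstance, inferInstance, hEM.trans le_sup_left, ?_⟩
    refine (bad_step hEM j le_sup_left le_sup_right gsz_sup_le hj).trans ?_
    have h1 : (0 : ℝ) < gsz (L j) := by exact_mod_cast gsz_pos (L j)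
    have h2 : (gsz (L j) : ℝ) ≤ B := by exact_mod_cast hB j
    have h3 : 1 / (B : ℝ) ≤ 1 / gsz (L j) := one_div_le_one_div_of_le h1 h2
    have h4 : (0 : ℝ) ≤ ((bad c L E M).card : ℝ) / gsz M := by positivity
    have h5 : (0 : ℝ) ≤ 1 - 1 / (B : ℝ) := by
      have h6 : (1 : ℝ) ≤ B := by
        have : 1 ≤ gsz (L j) := gsz_pos (L j)
        exact_mod_cast this.trans (hB j)
      have : 1 / (B : ℝ) ≤ 1 := by
        rw [div_le_one (by linarith)]
        exact h6
      linarith
    calc (1 - 1 / (gsz (L j) : ℝ)) * ((bad c L E M).card / gsz M)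
        ≤ (1 - 1 / (B : ℝ)) * ((bad c L E M).card / gsz M) :=
          mul_le_mul_of_nonneg_right (by linarith) h4
      _ ≤ (1 - 1 / (B : ℝ)) * (1 - 1 / (B : ℝ)) ^ N := mul_le_mul_of_nonneg_left hM h5
      _ = (1 - 1 / (B : ℝ)) ^ (N + 1) := by ring

end Rec

end Pool.Agent.W522.C
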