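import Pool.Agent.W522.C.C3
import Pool.Agent.W522.C.C8

/-! Density for a family of splitting fields. -/

set_option autoImplicit false

namespace Pool.Agent.W522.C

open Pool.Agent.W401.Cheb NumberField Filter Topology Finset Polynomial IntermediateField

section Transport

variable {M : Type} [Field M]

/-- the automorphisms over `ℚ` with a given property, for a given `ℚ`-algebra structure -/
def condSet (i : Algebra ℚ M) (p : (M → M) → Prop) : Set (@AlgEquiv ℚ M M _ _ _ i i) :=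
  {g | p g}

lemma card_condSet (i i' : Algebra ℚ M) (p : (M → M) → Prop) :
    (condSet i p).ncard = (condSet i' p).ncard := by
  obtain rfl : i = i' := Subsingleton.elim _ _
  rfl

lemma card_gal (i i' : Algebra ℚ M) :
    Nat.card (@AlgEquiv ℚ M M _ _ _ i i) = Nat.card (@AlgEquiv ℚ M M _ _ _ i' i') := by
  obtain rfl : i = i' := Subsingleton.elim _ _
  rfl

lemma isGalois_trans (i i' : Algebra ℚ M) (h : @IsGalois ℚ _ M _ i) : @IsGalois ℚ _ M _ i' := by
  obtain rfl : i = i' := Subsingleton.elim _ _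
  exact h

lemma finite_trans (i i' : Algebra ℚ M)
    (h : @Module.Finite ℚ M _ _ i.toModule) : @Module.Finite ℚ M _ _ i'.toModule := by
  obtain rfl : i = i' := Subsingleton.elim _ _
  exact h

end Transport

lemma LowerDensity.of_lim {S : Set ℕ} {δ : ℝ}
    (h : ∀ η : ℝ, 0 < η → ∃ δ', δ - η ≤ δ' ∧ LowerDensity S δ') : LowerDensity S δ := by
  intro ε hε
  obtain ⟨δ', h1, h2⟩ := h (ε / 2) (by linarith)
  filter_upwards [h2 (ε / 2) (by linarith)] with N hN
  refine le_trans ?_ hN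
  apply mul_le_mul_of_nonneg_right _ (Nat.cast_nonneg _)
  linarith

lemma LowerDensity.le {S : Set ℕ} {δ δ' : ℝ} (h : LowerDensity S δ) (hδ : δ' ≤ δ) :
    LowerDensity S δ' :=
  LowerDensity.of_lim fun η hη => ⟨δ, by linarith, h⟩

/-- a Frobenius element of a subfield `M` of `ℂ` which is the complex conjugation on the splitting
field of `R` -/
lemma conjLift_of {M : IntermediateField ℚ ℂ} {R : ℤ[X]} (g : M → M) (hR : SF R ≤ M)
    (hg : ∀ x : M, (x : ℂ) ∈ SF R → ((g x : M) : ℂ) = (starRingEnd ℂ) (x : ℂ)) {ℓ : ℕ}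
    [Fact ℓ.Prime] (ι : M →+* AlgebraicClosure ℚ_[ℓ])
    (σ : AlgebraicClosure ℚ_[ℓ] ≃ₐ[ℚ_[ℓ]] AlgebraicClosure ℚ_[ℓ]) (h : ∀ x, σ (ι x) = ι (g x)) :
    ConjLift R ℓ := by
  let inc : SF R →+* M := (SF R).val.toRingHom.codRestrict M fun x => hR x.2
  have hinc : ∀ x : SF R, ((inc x : M) : ℂ) = x := fun x => rfl
  refine ⟨ι.comp inc, σ, fun x => ?_⟩
  have h3 : g (inc x) = inc (conjSF R x) := by
    apply Subtype.ext
    rw [hg (inc x) (by rw [hinc]; exact x.2), hinc, hinc, conjSF_apply]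
  rw [RingHom.comp_apply, RingHom.comp_apply, h, h3]

/-- one step of the density argument -/
lemma density_step {J : Type*} (P : J → ℤ[X]) (bd : J → Finset ℕ) (M : IntermediateField ℚ ℂ)
    (hM1 : FiniteDimensional ℚ M) (hM2 : @IsGalois ℚ _ M _ (IntermediateField.algebra' M)) (n : ℕ)
    (hn : n ≤ (condSet (M := M) (IntermediateField.algebra' M) fun g => ∃ j, SF (P j) ≤ M ∧
      ∀ x : M, (x : ℂ) ∈ SF (P j) → ((g x : M) : ℂ) = (starRingEnd ℂ) (x : ℂ)).ncard) :
    LowerDensity {ℓ | ∃ h : ℓ.Prime, ∃ j, ℓ ∉ bd j ∧ @ConjLift (P j) ℓ ⟨h⟩}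
      (n / Nat.card (@AlgEquiv ℚ M M _ _ _ (IntermediateField.algebra' M)
        (IntermediateField.algebra' M))) := by
  classical
  set p : (M → M) → Prop := fun g => ∃ j, SF (P j) ≤ M ∧
      ∀ x : M, (x : ℂ) ∈ SF (P j) → ((g x : M) : ℂ) = (starRingEnd ℂ) (x : ℂ) with hp
  have hfin : @Module.Finite ℚ M _ _ (DivisionRing.toRatAlgebra : Algebra ℚ M).toModule :=
    finite_trans (IntermediateField.algebra' M) _ hM1
  have : NumberField M := @NumberField.mk M _ inferInstance hfin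
  have : IsGalois ℚ M := isGalois_trans _ _ hM2
  obtain ⟨D, hD, hT⟩ := torsor M
  set T : Finset Gal(M/ℚ) := univ.filter fun g => p g with hTdef
  have hTcard : (T.card : ℕ) = (condSet (M := M) (IntermediateField.algebra' M) p).ncard := by
    rw [card_condSet _ DivisionRing.toRatAlgebra, ← Set.ncard_coe_finset]
    congr 1
    ext g
    rw [hTdef]
    simp only [coe_filter, mem_univ, true_and]
    rfl
  have hch : ∀ g : Gal(M/ℚ), ∃ B : Finset ℕ, g ∈ T → ∃ j, bd j = B ∧ SF (P j) ≤ M ∧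
      ∀ x : M, (x : ℂ) ∈ SF (P j) → ((g x : M) : ℂ) = (starRingEnd ℂ) (x : ℂ) := by
    intro g
    by_cases hg : g ∈ T
    · obtain ⟨j, hj⟩ := (mem_filter.1 hg).2
      exact ⟨bd j, fun _ => ⟨j, rfl, hj⟩⟩
    · exact ⟨∅, fun h => absurd h hg⟩
  choose Bd hBd using hch
  set D' : ℕ := D * ∏ g ∈ T, ∏ q ∈ (Bd g).filter (fun q => q ≠ 0), q with hD'
  have hD'0 : 0 < D' := by
    refine Nat.mul_pos hD (Finset.prod_pos fun g _ => Finset.prod_pos fun q hq => ?_)
    exact Nat.pos_of_ne_zero (mem_filter.1 hq).2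
  have h1 := lower_density M T hD'0 (fun p _ hp => hT p fun h => hp (h.mul_right _))
  have h2 := h1.mono (S' := {ℓ | ∃ h : ℓ.Prime, ∃ j, ℓ ∉ bd j ∧ @ConjLift (P j) ℓ ⟨h⟩}) (by
    rintro ℓ hℓ ⟨h3, g, hg, h4⟩
    have : Fact ℓ.Prime := ⟨hℓ⟩
    have hℓD : ¬ ℓ ∣ D := fun h => h3 (h.mul_right _)
    obtain ⟨j, hj0, hj1, hj2⟩ := hBd g hg
    obtain ⟨ι, σ, hσ⟩ := sigma_lift M g (hT ℓ hℓD) h4
    refine ⟨hℓ, j, fun h5 => h3 ?_, conjLift_of g hj1 hj2 ι σ hσ⟩
    rw [hj0] at h5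
    have h6 : ℓ ∣ ∏ q ∈ (Bd g).filter (fun q => q ≠ 0), q :=
      Finset.dvd_prod_of_mem _ (mem_filter.2 ⟨h5, hℓ.ne_zero⟩)
    exact (h6.trans (Finset.dvd_prod_of_mem
      (fun g => ∏ q ∈ (Bd g).filter (fun q => q ≠ 0), q) hg)).mul_left _)
  refine h2.le ?_
  rw [card_gal (M := M) (IntermediateField.algebra' M) DivisionRing.toRatAlgebra]
  apply div_le_div_of_nonneg_right _ (Nat.cast_nonneg _)
  rw [hTcard]
  exact_mod_cast hn

/-- **The density theorem for a family of splitting fields.** -/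
theorem density_family {J : Type*} (P : J → ℤ[X]) (bd : J → Finset ℕ)
    (E : IntermediateField ℚ ℂ)
    (hE1 : FiniteDimensional ℚ E) (hE2 : @IsGalois ℚ _ E _ (IntermediateField.algebra' E))
    {B : ℕ} (hB : ∀ j, Module.finrank ℚ (SF (P j)) ≤ B)
    (hdisj : ∀ M : IntermediateField ℚ ℂ, FiniteDimensional ℚ M → ∃ j, SF (P j) ⊓ M ≤ E) :
    LowerDensity {ℓ | ∃ h : ℓ.Prime, ∃ j, ℓ ∉ bd j ∧ @ConjLift (P j) ℓ ⟨h⟩}
      (1 / Module.finrank ℚ E) := by
  classical
  let c : ℂ ≃ₐ[ℚ] ℂ := Complex.conjAe.restrictScalars ℚ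
  have : ∀ j, @IsGalois ℚ _ (SF (P j)) _ (IntermediateField.algebra' (SF (P j))) := fun j =>
    isGalois_trans _ _ (galSF (P j))
  have : FiniteDimensional ℚ E := hE1
  have hB' : ∀ j, gsz (SF (P j)) ≤ B := by
    intro j
    unfold gsz
    rw [IsGalois.card_aut_eq_finrank]
    exact hB j
  have hgE : gsz E = Module.finrank ℚ E := by
    unfold gsz
    rw [IsGalois.card_aut_eq_finrank]
  obtain ⟨j0, -⟩ := hdisj ⊥ inferInstance
  have hB1 : 1 ≤ B := (gsz_pos (SF (P j0))).trans_le (hB' j0)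
  refine LowerDensity.of_lim fun η hη => ?_
  have hlim : Tendsto (fun N : ℕ => (1 - 1 / (B : ℝ)) ^ N) atTop (𝓝 0) := by
    apply tendsto_pow_atTop_nhds_zero_of_lt_one
    · have : 1 / (B : ℝ) ≤ 1 := by
        rw [div_le_one (by exact_mod_cast hB1)]
        exact_mod_cast hB1
      linarith
    · have : 0 < 1 / (B : ℝ) := by
        have : (0 : ℝ) < B := by exact_mod_cast hB1
        positivity
      linarith
  obtain ⟨N, hN⟩ := (hlim.eventually (gt_mem_nhds hη)).exists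
  obtain ⟨M, i1, i2, hEM, hM⟩ := exists_small (c := c) (L := fun j => SF (P j)) (E := E) hB'
    (fun M h1 _ => hdisj M h1) N
  have h1 := card_good_ge (c := c) (L := fun j => SF (P j)) hEM
  have h2 := density_step P bd M i1 i2 (good c (fun j => SF (P j)) M).card (by
    rw [← Set.ncard_coe_finset]
    apply le_of_eq
    congr 1
    ext g
    unfold good
    simp only [coe_filter, mem_univ, true_and]
    rfl)
  refine ⟨_, ?_, h2⟩
  have hg : (0 : ℝ) < gsz M := by exact_mod_cast gsz_pos M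
  change _ ≤ ((good c (fun j => SF (P j)) M).card : ℝ) / (gsz M : ℝ)
  rw [← hgE, le_div_iff₀ hg]
  have h3 : ((bad c (fun j => SF (P j)) E M).card : ℝ) ≤ η * gsz M := by
    rw [div_le_iff₀ hg] at hM
    exact hM.trans (mul_le_mul_of_nonneg_right hN.le hg.le)
  have h4 : (1 / (gsz E : ℝ) - η) * gsz M = (gsz M : ℝ) / gsz E - η * gsz M := by ring
  rw [h4]
  linarith

end Pool.Agent.W522.C
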