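import Pool.Agent.W522.C.C7

/-! Families of `ℓ`-adic representations with forms: definitions. -/

set_option autoImplicit false

namespace Pool.Agent.W522.C

open Polynomial Module

instance (ℓ : Nat.Primes) : Fact (ℓ : ℕ).Prime := ⟨ℓ.2⟩

/-- For every prime number `ℓ` a finite-dimensional representation of the group `G` over `ℚ_ℓ`, with
a non-degenerate bilinear form (symmetric or alternating, say: `form x y = 0` implies
`form y x = 0`) which the elements of `G` preserve up to scalars. Example: `G` is the absolute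
Galois group of a field, and `V ℓ` the `ℓ`-adic cohomology `H^i(X)` of a smooth projective variety,
with the form `(x, y) ↦ x ∪ L^(d-i) y`. -/
structure PairedFamily (G : Type*) [Group G] where
  /-- the spaces -/
  V : Nat.Primes → Type
  grp : ∀ ℓ : Nat.Primes, AddCommGroup (V ℓ)
  mod : ∀ ℓ : Nat.Primes, Module ℚ_[(ℓ : ℕ)] (V ℓ)
  fin : ∀ ℓ : Nat.Primes, FiniteDimensional ℚ_[(ℓ : ℕ)] (V ℓ)
  /-- the action -/
  ρ : ∀ ℓ : Nat.Primes, G →* Module.End ℚ_[(ℓ : ℕ)] (V ℓ)
  /-- the form -/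
  form : ∀ ℓ : Nat.Primes, V ℓ →ₗ[ℚ_[(ℓ : ℕ)]] V ℓ →ₗ[ℚ_[(ℓ : ℕ)]] ℚ_[(ℓ : ℕ)]
  nondeg : ∀ (ℓ : Nat.Primes) (x : V ℓ), (∀ y, form ℓ x y = 0) → x = 0
  refl : ∀ (ℓ : Nat.Primes) (x y : V ℓ), form ℓ x y = 0 → form ℓ y x = 0
  /-- the multiplier -/
  mult : ∀ ℓ : Nat.Primes, G → ℚ_[(ℓ : ℕ)]
  mult_spec : ∀ (ℓ : Nat.Primes) (g : G) (x y : V ℓ),
    form ℓ (ρ ℓ g x) (ρ ℓ g y) = mult ℓ g * form ℓ x y

attribute [instance] PairedFamily.grp PairedFamily.mod PairedFamily.fin

variable {G : Type*} [Group G]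

/-- The element `g` (in the applications, a Frobenius element) acts, for all `ℓ` outside a finite
set, with the same characteristic polynomial `P ∈ ℤ[T]` and the multiplier `q`, a positive integer,
and all complex roots of `P` have absolute value `√q`. -/
structure IsPure (S : PairedFamily G) (bad : Finset ℕ) (g : G) (P : ℤ[X]) (q : ℕ) : Prop where
  pos : 0 < q
  charpoly : ∀ ℓ : Nat.Primes, (ℓ : ℕ) ∉ bad →
    (S.ρ ℓ g).charpoly = P.map (Int.castRingHom ℚ_[(ℓ : ℕ)])
  mult : ∀ ℓ : Nat.Primes, (ℓ : ℕ) ∉ bad → S.mult ℓ g = q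
  abs : ∀ z : ℂ, aeval z P = 0 → ‖z‖ ^ 2 = q

/-- A finite set of elements `g i` as in `IsPure`, with polynomials `P i`, such that for every
`r ≥ 1` some `P i` is not divisible by the square of a real polynomial of degree `r` (for one
element: `P` has no multiple roots). -/
structure Witness (S : PairedFamily G) where
  /-- the indices -/
  ι : Type
  fintype : Fintype ι
  /-- finitely many exceptional primes `ℓ` -/
  bad : Finset ℕ
  /-- the elements -/
  g : ι → G
  /-- the characteristic polynomials -/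
  P : ι → ℤ[X]
  /-- the multipliers -/
  q : ι → ℕ
  pure : ∀ i, IsPure S bad (g i) (P i) (q i)
  sep : ∀ r : ℕ, 1 ≤ r → ∃ i, ∀ f : ℝ[X], f.Monic → f.natDegree = r →
    ¬ f ^ 2 ∣ (P i).map (Int.castRingHom ℝ)

attribute [instance] Witness.fintype

/-- the subfield of `ℂ` generated by all complex roots of the polynomials `P i` -/
noncomputable def Witness.field {S : PairedFamily G} (w : Witness S) : IntermediateField ℚ ℂ :=
  IntermediateField.adjoin ℚ {z | ∃ i, aeval z (w.P i) = 0}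

/-- the orthogonal complement -/
def PairedFamily.orth (S : PairedFamily G) {ℓ : Nat.Primes} (W : Submodule ℚ_[(ℓ : ℕ)] (S.V ℓ)) :
    Submodule ℚ_[(ℓ : ℕ)] (S.V ℓ) where
  carrier := {y | ∀ x ∈ W, S.form ℓ x y = 0}
  zero_mem' := fun x _ => map_zero _
  add_mem' := fun {a b} ha hb x hx => by rw [map_add, ha x hx, hb x hx, add_zero]
  smul_mem' := fun c a ha x hx => by rw [map_smul, ha x hx, smul_zero]

/-- The representation `V ℓ` is semisimple, in the strong form: for every `G`-stable subspace `W`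
the orthogonal complement of `W` is a `G`-stable complement of `W`. -/
def PairedFamily.Semisimple (S : PairedFamily G) (ℓ : Nat.Primes) : Prop :=
  ∀ W : Submodule ℚ_[(ℓ : ℕ)] (S.V ℓ), (∀ g, ∀ x ∈ W, S.ρ ℓ g x ∈ W) →
    (∀ g, ∀ x ∈ S.orth W, S.ρ ℓ g x ∈ S.orth W) ∧ IsCompl W (S.orth W)

end Pool.Agent.W522.C
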