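import Pool.Agent.W522.C.C5
import Pool.Agent.W522.C.Defs

/-! Semisimplicity for a set of primes of positive density. -/

set_option autoImplicit false

namespace Pool.Agent.W522.C

open Polynomial Module

variable {G : Type*} [Group G] {S : PairedFamily G}

lemma Witness.field_eq (w : Witness S) (hP : ∀ i, w.P i ≠ 0) : w.field = SF (∏ i, w.P i) := by
  unfold Witness.field SF
  congr 1
  ext z
  have hinj : Function.Injective (algebraMap ℤ ℚ) := (algebraMap ℤ ℚ).injective_int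
  have h1 : ∀ Q : ℤ[X], aeval z (Q.map (algebraMap ℤ ℚ)) = aeval z Q := fun Q =>
    aeval_map_algebraMap ℚ z Q
  rw [mem_rootSet, h1, map_prod, Finset.prod_eq_zero_iff]
  simp only [Finset.mem_univ, true_and]
  constructor
  · intro h
    exact ⟨(Polynomial.map_ne_zero_iff hinj).2 (Finset.prod_ne_zero_iff.2 fun i _ => hP i), h⟩
  · exact fun h => h.2

lemma IsPure.ne_zero {bad : Finset ℕ} {g : G} {P : ℤ[X]} {q : ℕ} (h : IsPure S bad g P q) :
    P.Monic := by
  obtain ⟨p, h2⟩ : ∃ p : Nat.Primes, (p : ℕ) ∉ bad := by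
    obtain ⟨ℓ, hℓ, h1⟩ := Nat.exists_infinite_primes (bad.sup id + 1)
    refine ⟨⟨ℓ, h1⟩, fun h3 => ?_⟩
    have h4 := Finset.le_sup (f := id) h3
    simp only [id] at h4
    omega
  have h3 := h.charpoly p h2
  have h4 : (P.map (Int.castRingHom ℚ_[(p : ℕ)])).Monic := by
    rw [← h3]
    exact LinearMap.charpoly_monic _
  exact Polynomial.monic_of_injective (RingHom.injective_int _) h4

/-- the main step -/
theorem semisimple_of_conjLift (w : Witness S) {ℓ : Nat.Primes} (hℓ : (ℓ : ℕ) ∉ w.bad)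
    (hlift : ConjLift (∏ i, w.P i) ℓ) : S.Semisimple ℓ := by
  classical
  have hPm : ∀ i, (w.P i).Monic := fun i => (w.pure i).ne_zero
  have hP0 : (∏ i, w.P i) ≠ 0 := Finset.prod_ne_zero_iff.2 fun i _ => (hPm i).ne_zero
  intro W hW
  -- invertibility
  have hstab : ∀ g, ∀ x ∈ W, ∃ y ∈ W, S.ρ ℓ g y = x := by
    intro g x hx
    refine ⟨S.ρ ℓ g⁻¹ x, hW _ _ hx, ?_⟩
    rw [← Module.End.mul_apply, ← map_mul, mul_inv_cancel, map_one, Module.End.one_apply]
  have horth : ∀ g, ∀ x ∈ S.orth W, S.ρ ℓ g x ∈ S.orth W := by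
    intro g x hx y hy
    obtain ⟨z, hz, rfl⟩ := hstab g y hy
    rw [S.mult_spec, hx z hz, mul_zero]
  refine ⟨horth, ?_⟩
  have hbot : W ⊓ S.orth W = ⊥ := by
    by_contra hne
    set R := W ⊓ S.orth W with hR
    have hr : 1 ≤ finrank ℚ_[(ℓ : ℕ)] R := by
      rw [Nat.one_le_iff_ne_zero]
      intro h0
      exact hne (Submodule.finrank_eq_zero.1 h0)
    obtain ⟨i, hi⟩ := w.sep _ hr
    have hp := w.pure i
    have hRs : R ≤ R.comap (S.ρ ℓ (w.g i)) := fun x hx => ⟨hW _ _ hx.1, horth _ _ hx.2⟩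
    have hqℓ : ((w.q i : ℕ) : ℚ_[(ℓ : ℕ)]) ≠ 0 := by exact_mod_cast hp.pos.ne'
    obtain ⟨f, h1, h2, h3⟩ := charpoly_dvd (S.form ℓ) (S.nondeg ℓ) (S.ρ ℓ (w.g i)) hqℓ (by
      intro x y
      rw [S.mult_spec, hp.mult ℓ hℓ]) R hRs (fun x hx y hy => hy.2 x hx.1)
    rw [hp.charpoly ℓ hℓ] at h1
    have hdeg : (((S.ρ ℓ (w.g i)).restrict hRs).charpoly).natDegree = finrank ℚ_[(ℓ : ℕ)] R :=
      LinearMap.charpoly_natDegree _
    obtain ⟨Gp, hG1, hG2, hG3⟩ := real_square (P := ∏ i, w.P i) (Pv := w.P i) (c := w.q i) (hPm i)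
      (Finset.dvd_prod_of_mem _ (Finset.mem_univ i)) hP0 hp.abs hlift
      (((S.ρ ℓ (w.g i)).restrict hRs).charpoly) f (LinearMap.charpoly_monic _) h2 (by
        intro t ht
        rw [hdeg]
        exact h3 t ht) h1
    exact hi Gp hG1 (hG2.trans hdeg) hG3
  have h1 : S.orth W = LinearMap.BilinForm.orthogonal (S.form ℓ) W := by
    ext y
    rfl
  have hrefl : (S.form ℓ).IsRefl := S.refl ℓ
  rw [h1] at hbot ⊢
  exact (LinearMap.BilinForm.isCompl_orthogonal_iff_disjoint hrefl).2 (disjoint_iff.2 hbot)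

/-- **The family version.** -/
theorem semisimple_family (W : Set (Witness S)) (E : IntermediateField ℚ ℂ)
    (hE1 : FiniteDimensional ℚ E) (hE2 : @IsGalois ℚ _ E _ (IntermediateField.algebra' E))
    {B : ℕ} (hB : ∀ w ∈ W, Module.finrank ℚ w.field ≤ B)
    (hdisj : ∀ M : IntermediateField ℚ ℂ, FiniteDimensional ℚ M → ∃ w ∈ W, w.field ⊓ M ≤ E) :
    LowerDensity {ℓ | ∃ h : ℓ.Prime, S.Semisimple ⟨ℓ, h⟩} (1 / Module.finrank ℚ E) := by
  have hfield : ∀ w : Witness S, w.field = SF (∏ i, w.P i) := fun w =>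
    w.field_eq fun i => (w.pure i).ne_zero.ne_zero
  have h1 := density_family (J := W) (fun w => ∏ i, w.1.P i) (fun w => w.1.bad) E hE1 hE2 (B := B)
    (fun w => by rw [← hfield]; exact hB w.1 w.2) (fun M hM => by
      obtain ⟨w, hw, h2⟩ := hdisj M hM
      exact ⟨⟨w, hw⟩, by rw [← hfield]; exact h2⟩)
  refine h1.mono ?_
  rintro ℓ hℓ ⟨h2, w, hw, h3⟩
  exact ⟨h2, semisimple_of_conjLift w.1 (ℓ := ⟨ℓ, h2⟩) hw h3⟩

lemma galField (w : Witness S) : FiniteDimensional ℚ w.field ∧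
    @IsGalois ℚ _ w.field _ (IntermediateField.algebra' w.field) := by
  rw [w.field_eq fun i => (w.pure i).ne_zero.ne_zero]
  exact ⟨inferInstance, isGalois_trans _ _ (galSF _)⟩

/-- **The version with one witness.** -/
theorem semisimple_one (w : Witness S) :
    LowerDensity {ℓ | ∃ h : ℓ.Prime, S.Semisimple ⟨ℓ, h⟩} (1 / Module.finrank ℚ w.field) := by
  refine semisimple_family {w} w.field (galField w).1 (galField w).2 (B := finrank ℚ w.field) ?_ ?_
  · rintro w' rfl
    exact le_rfl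
  · intro M _
    exact ⟨w, rfl, inf_le_left⟩

/-- a polynomial without multiple roots -/
noncomputable def Witness.single (bad : Finset ℕ) (g : G) (P : ℤ[X]) (q : ℕ)
    (h : IsPure S bad g P q) (hsq : (P.map (Int.castRingHom ℂ)).Separable) : Witness S where
  ι := Unit
  fintype := inferInstance
  bad := bad
  g := fun _ => g
  P := fun _ => P
  q := fun _ => q
  pure := fun _ => h
  sep := fun r hr => ⟨(), fun f hf hdeg hdvd => by
    have h1 : (f.map Complex.ofRealHom) ^ 2 ∣ P.map (Int.castRingHom ℂ) := by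
      have h2 := Polynomial.map_dvd Complex.ofRealHom hdvd
      rw [Polynomial.map_pow, Polynomial.map_map] at h2
      convert h2 using 2
      exact RingHom.ext_int _ _
    have h3 : IsUnit (f.map Complex.ofRealHom) := hsq.squarefree _ (by rwa [pow_two] at h1)
    have h4 := Polynomial.natDegree_eq_zero_of_isUnit h3
    rw [Polynomial.natDegree_map, hdeg] at h4
    omega⟩

end Pool.Agent.W522.C
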