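import Pool.Agent.W522.C.C9

/-! Families of `ℓ`-adic representations with forms: definitions for the final statement. -/

set_option autoImplicit false

namespace Pool.Agent.W522.C

open Polynomial

section
variable (K : Type*) [Field K] (G : Type*) [Group G]

/-- A finite-dimensional representation of the group `G` over `K`. -/
structure Rp where
  /-- the space -/
  V : Type
  [grp : AddCommGroup V]
  [mod : Module K V]
  [fin : FiniteDimensional K V]
  /-- the action -/
  ρ : G →* Module.End K V

attribute [instance] Rp.grp Rp.mod Rp.fin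
end

section
variable {K : Type*} [Field K] {G : Type*} [Group G]

/-- bilinear forms on the space of a representation -/
abbrev Rp.Bil (R : Rp K G) := LinearMap.BilinForm K R.V

/-- the action of an element -/
def Rp.act (R : Rp K G) (g : G) (x : R.V) : R.V := R.ρ g x

/-- `b(gx, gy) = m b(x, y)` for all `x`, `y` -/
def Rp.Scales (R : Rp K G) (b : R.Bil) (g : G) (m : K) : Prop :=
  ∀ x y, b (R.act g x) (R.act g y) = m * b x y

/-- `b(x, y) = 0` for all `y` only if `x = 0` -/
def Rp.NonDeg (R : Rp K G) (b : R.Bil) : Prop := ∀ x, (∀ y, b x y = 0) → x = 0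

/-- `g` has the characteristic polynomial `P`. -/
def Rp.HasPoly (R : Rp K G) (g : G) (P : ℤ[X]) : Prop :=
  (R.ρ g).charpoly = P.map (Int.castRingHom K)

/-- `W` is stable under `G`. -/
def Rp.Stable (R : Rp K G) (W : Submodule K R.V) : Prop := ∀ g, ∀ x ∈ W, R.act g x ∈ W

end

/-- A finite-dimensional representation of the group `G` over `K`, with
a non-degenerate bilinear form (symmetric or alternating, say: `form x y = 0` implies
`form y x = 0`) which the elements of `G` preserve up to scalars. -/
structure PairedRep (K : Type*) [Field K] (G : Type*) [Group G] extends Rp K G where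
  /-- the form -/
  form : toRp.Bil
  nondeg : toRp.NonDeg form
  refl : form.IsRefl
  /-- the multiplier -/
  mult : G → K
  mult_spec : ∀ g, toRp.Scales form g (mult g)

/-- The representation is semisimple, in the strong form: for every `G`-stable subspace `W`
the orthogonal complement of `W` is a `G`-stable complement of `W`. -/
def PairedRep.Semisimple {K : Type*} [Field K] {G : Type*} [Group G] (R : PairedRep K G) : Prop :=
  ∀ W, R.Stable W → R.Stable (R.form.orthogonal W) ∧ IsCompl W (R.form.orthogonal W)

/-- For every prime number `ℓ` a finite-dimensional representation `S ℓ` of the group `G` over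
`ℚ_ℓ` with a form. Example: `G` is the absolute Galois group of a field, and `S ℓ` the `ℓ`-adic
cohomology `H^i(X)` of a smooth projective variety, with the form `(x, y) ↦ x ∪ L^(d-i) y`. -/
abbrev Fam (G : Type*) [Group G] := ∀ ℓ : Nat.Primes, PairedRep ℚ_[(ℓ : ℕ)] G

variable {G : Type*} [Group G]

/-- The element `g` (in the applications, a Frobenius element) acts, for all `ℓ` outside a finite
set, with the same characteristic polynomial `P ∈ ℤ[T]` and the multiplier `q`, a positive integer,
and all complex roots of `P` have absolute value `√q`. -/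
structure Pure (S : Fam G) (bad : Finset ℕ) (g : G) (P : ℤ[X]) (q : ℕ) : Prop where
  pos : 0 < q
  charpoly : ∀ ℓ : Nat.Primes, (ℓ : ℕ) ∉ bad → (S ℓ).HasPoly g P
  mult : ∀ ℓ : Nat.Primes, (ℓ : ℕ) ∉ bad → (S ℓ).mult g = q
  abs : ∀ z : ℂ, aeval z P = 0 → ‖z‖ ^ 2 = q

/-- `P` is divisible by the square of a real polynomial of degree `r`. -/
def SquareDvd (P : ℤ[X]) (r : ℕ) : Prop :=
  ∃ f : ℝ[X], f.Monic ∧ f.natDegree = r ∧ f ^ 2 ∣ P.map (Int.castRingHom ℝ)

/-- The polynomial `P` has no multiple roots. -/
def NoMultipleRoots (P : ℤ[X]) : Prop := (P.map (Int.castRingHom ℂ)).Separable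

/-- A finite set of elements `g i` as in `Pure`, with polynomials `P i`, such that for every
`r ≥ 1` some `P i` is not divisible by the square of a real polynomial of degree `r` (for one
element: `P` has no multiple roots). -/
structure System (S : Fam G) where
  /-- the indices -/
  ι : Type
  [fintype : Fintype ι]
  /-- finitely many exceptional primes `ℓ` -/
  bad : Finset ℕ
  /-- the elements -/
  g : ι → G
  /-- the characteristic polynomials -/
  P : ι → ℤ[X]
  /-- the multipliers -/
  q : ι → ℕ
  pure : ∀ i, Pure S bad (g i) (P i) (q i)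
  sep : ∀ r : ℕ, 1 ≤ r → ∃ i, ¬ SquareDvd (P i) r

/-- the subfield of `ℂ` generated by all complex roots of the polynomials in the set `T` -/
noncomputable def rootField (T : Set ℤ[X]) : IntermediateField ℚ ℂ :=
  IntermediateField.adjoin ℚ {z | ∃ P ∈ T, aeval z P = 0}

/-- the subfield of `ℂ` generated by all complex roots of the polynomials `P i` -/
noncomputable def System.field {S : Fam G} (w : System S) : IntermediateField ℚ ℂ :=
  rootField (Set.range w.P)

/-- the degree over `ℚ` -/
noncomputable def deg (E : IntermediateField ℚ ℂ) : ℕ := Module.finrank ℚ E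

/-- `E` is a finite Galois extension of `ℚ`. -/
def FiniteGalois (E : IntermediateField ℚ ℂ) : Prop := FiniteDimensional ℚ E ∧ IsGalois ℚ E

/-- For every number field `M ⊆ ℂ` the field of some member of `W` meets `M` inside `E`. -/
def Core {S : Fam G} (W : Set (System S)) (E : IntermediateField ℚ ℂ) : Prop :=
  ∀ M : IntermediateField ℚ ℂ, FiniteDimensional ℚ M → ∃ w ∈ W, w.field ⊓ M ≤ E

/-- The prime numbers `ℓ` for which `S ℓ` is semisimple have lower density at least
`1 / [E : ℚ]`. -/
def SemisimpleForDensity (S : Fam G) (E : IntermediateField ℚ ℂ) : Prop :=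
  LowerDensity {ℓ | ∃ h : ℓ.Prime, (S ⟨ℓ, h⟩).Semisimple} (1 / deg E)

end Pool.Agent.W522.C
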